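import Pool.Agent.AML.F.T

/-! # Block F: arcs and tiles of the circle (definitions).

* `Parc a u`, `a : Fin 108`, `u ∈ [0,1]`: parametrised arc between two consecutive nodes; `u = 0` is the
  level `lev (nodeC a)` (a node of type `c`), `u = 1` the neighbouring midpoint (a node of type `B`).
  The arcs `107, 0, 1, …, 34` fill `[0,1]`, the arcs `35, …, 70` fill `[1,∞]`, the arcs `71, …, 106`
  fill `[∞,0]`; `ρ = TT ∘ SS` maps arc `a` to arc `a - 36`.
* `chi k y`, `cr k`, `y ∈ [-1,1]`: parametrised tile between the consecutive crossing levels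
  `lev k`, `lev (nx k)`.
* `Yc φ u`: coordinate of the point `Parc a u` in the tile of the flag `φ = (side, a)`. -/

set_option linter.style.longLine false

open Topology Set

namespace Pool.AML

noncomputable section

/-- next crossing level (cyclic order). -/
def nxTab : List ℕ := [54, 3, 54, 5, 54, 6, 8, 54, 10, 54, 13, 54, 54, 15, 54, 17, 54, 18, 20, 54, 22, 54,
  25, 54, 54, 27, 54, 29, 54, 30, 32, 54, 34, 54, 36, 54, 37, 38, 39, 40, 41, 42, 43, 44, 45, 46, 47, 48,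
  49, 50, 51, 52, 53, 1]

def nx (k : Fin 54) : Fin 54 := if h : nxTab.getD k 54 < 54 then ⟨nxTab.getD k 54, h⟩ else k

/-- start level of the tile containing the arc `a`. -/
def tileTab : List ℕ := [53, 53, 1, 1, 1, 1, 3, 3, 3, 3, 5, 5, 6, 6, 6, 6, 8, 8, 8, 8, 10, 10, 10, 10, 10,
  10, 13, 13, 13, 13, 15, 15, 15, 15, 17, 17, 18, 18, 18, 18, 20, 20, 20, 20, 22, 22, 22, 22, 22, 22, 25,
  25, 25, 25, 27, 27, 27, 27, 29, 29, 30, 30, 30, 30, 32, 32, 32, 32, 34, 34, 34, 34, 36, 36, 37, 37, 38,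
  38, 39, 39, 40, 40, 41, 41, 42, 42, 43, 43, 44, 44, 45, 45, 46, 46, 47, 47, 48, 48, 49, 49, 50, 50, 51,
  51, 52, 52, 53, 53]

def tileL (a : Fin 108) : Fin 54 := ⟨(tileTab.getD a 0) % 54, Nat.mod_lt _ (by norm_num)⟩

/-- the tile of a flag: for the right side the tile of `TTi` of the arc. -/
def tile (p : Flag) : Fin 54 := if p.1 then tileL p.2 else sg (tileL (p.2 + 36))

/-- nodes of `[0,1]`: `nu 0 = 0`, `nu (2k+1) = lev k`, `nu (2k+2) =` midpoint of `lev k`,
`lev (k+1)` for `k ≤ 16`, `nu 36 = 1`. -/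
def nu (i : ℕ) : ℝ :=
  if i = 0 then 0 else if 36 ≤ i then 1 else
    if i % 2 = 1 then lev ⟨(i / 2) % 54, Nat.mod_lt _ (by norm_num)⟩
    else (lev ⟨(i / 2 - 1) % 54, Nat.mod_lt _ (by norm_num)⟩ + lev ⟨(i / 2) % 54, Nat.mod_lt _ (by norm_num)⟩) / 2

/-- sector `0, 1, 2` of an arc: `[0,1]`, `[1,∞]`, `[∞,0]`. -/
def sec (a : Fin 108) : ℕ := (a + 1 : Fin 108).1 / 36

/-- index `0 ≤ i < 36` of the fundamental arc (interval between the nodes `nu i`, `nu (i+1)`). -/
def ix (a : Fin 108) : ℕ := (a + 1 : Fin 108).1 % 36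

/-- the point of `[0,1]` which gives `Parc a u` after applying a power of `ρ`. -/
def pp (a : Fin 108) (u : ℝ) : ℝ :=
  if ix a % 2 = 0 then nu (ix a + 1) + u * (nu (ix a) - nu (ix a + 1))
  else nu (ix a) + u * (nu (ix a + 1) - nu (ix a))

/-- parametrised arcs. -/
def Parc (a : Fin 108) (u : ℝ) : OnePoint ℝ :=
  if sec a = 0 then ((pp a u : ℝ) : OnePoint ℝ)
  else if sec a = 1 then SS ((pp a u - 1 : ℝ) : OnePoint ℝ)
  else TT (SS ((pp a u : ℝ) : OnePoint ℝ))

/-- affine tile chart: end points. -/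
def loT (k : Fin 54) : ℝ := if 36 ≤ k.1 then lev k else lev (sg k)
def hiT (k : Fin 54) : ℝ := if 36 ≤ k.1 then lev (nx k) else lev (nx (sg k))

/-- parametrised tiles. -/
def chi (k : Fin 54) (y : ℝ) : OnePoint ℝ :=
  if 36 ≤ k.1 then (((1 - y) / 2 * loT k + (1 + y) / 2 * hiT k : ℝ) : OnePoint ℝ)
  else SS (((1 - y) / 2 * loT k + (1 + y) / 2 * hiT k : ℝ) : OnePoint ℝ)

/-- the point `Parc a u` in the affine chart of its tile. -/
def xval (a : Fin 108) (u : ℝ) : ℝ :=
  if sec a = 0 then (if 36 ≤ (tileL a).1 then pp a u else -1 / pp a u)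
  else if sec a = 1 then pp a u - 1
  else (if 36 ≤ (tileL a).1 then 1 - 1 / pp a u else pp a u / (1 - pp a u))

/-- tile coordinate of `Parc a u`. -/
def YL (a : Fin 108) (u : ℝ) : ℝ :=
  (2 * xval a u - loT (tileL a) - hiT (tileL a)) / (hiT (tileL a) - loT (tileL a))

/-- tile coordinate of a flag. -/
def Yc (p : Flag) (u : ℝ) : ℝ := if p.1 then YL p.2 u else YL (p.2 + 36) u

end

end Pool.AML
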