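import Pool.Agent.AML.F.T

/-! [AML-F1b] Exact relations between the levels.

General lemmas on `attr (a, b, c, d) = ((a - d) + √((a + d)² - 4)) / (2c)`:
* `T`-conjugation `(a + c, b + d - a - c, c, d - c)`: same trace, same `c`, `a' - d' = a - d + 2c`, so
  `attr' = attr + 1` (`c ≠ 0`);
* `S`-conjugation `(d, -c, -b, a)` with `a d - b c = 1`, `b, c ≠ 0`, `(a + d)² > 4`:
  `attr' = ((d - a) + √) / (-2b) = -1 / attr` because `((d - a) + √) ((a - d) + √) = 4 b c`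
  (`Real.mul_self_sqrt`), and `attr ≠ 0`;
* `ρ⁻¹`-conjugation (`ρ⁻¹ = (0, 1; -1, 1)`, `ρ⁻¹ m ρ`): `attr' = 1 / (1 - attr)`; this is
  `S⁻¹ T⁻¹`: `1 / (1 - z) = -1 / (z - 1)`, so it follows from the two others.
Then the statements about `levMat` (`levMat (tt k) = ...`, `levMat (sg k) = ...`,
`levMat (k + 18) = ...`, `ad - bc = 1`, `b ≠ 0`, `c ≠ 0`, `a + d > 2`, and for `lev_rho` also
`b + d - a - c ≠ 0` of the translated matrix) are proved by `decide` on the table. -/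

set_option linter.style.longLine false

namespace Pool.AML

theorem F1b_attr_T (m : ℤ × ℤ × ℤ × ℤ) (hc : m.2.2.1 ≠ 0) :
    attr (m.1 + m.2.2.1, m.2.1 + m.2.2.2 - m.1 - m.2.2.1, m.2.2.1, m.2.2.2 - m.2.2.1) =
      attr m + 1 := by
  obtain ⟨a, b, c, d⟩ := m
  have hc' : (c : ℝ) ≠ 0 := by exact_mod_cast hc
  simp only [attr]
  push_cast
  have e1 : (a : ℝ) + c + (d - c) = a + d := by ring
  rw [e1]
  field_simp
  ring

theorem F1b_attr_Ti (m : ℤ × ℤ × ℤ × ℤ) (hc : m.2.2.1 ≠ 0) :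
    attr (m.1 - m.2.2.1, m.2.1 - m.2.2.2 + m.1 - m.2.2.1, m.2.2.1, m.2.2.2 + m.2.2.1) =
      attr m - 1 := by
  obtain ⟨a, b, c, d⟩ := m
  have hc' : (c : ℝ) ≠ 0 := by exact_mod_cast hc
  simp only [attr]
  push_cast
  have e1 : (a : ℝ) - c + (d + c) = a + d := by ring
  rw [e1]
  field_simp
  ring

theorem F1b_attr_S (m : ℤ × ℤ × ℤ × ℤ) (hdet : m.1 * m.2.2.2 - m.2.1 * m.2.2.1 = 1)
    (hb : m.2.1 ≠ 0) (hc : m.2.2.1 ≠ 0) (ht : 2 < m.1 + m.2.2.2) :
    attr (m.2.2.2, -m.2.2.1, -m.2.1, m.1) = -1 / attr m := by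
  obtain ⟨a, b, c, d⟩ := m
  have hb' : (b : ℝ) ≠ 0 := by exact_mod_cast hb
  have hc' : (c : ℝ) ≠ 0 := by exact_mod_cast hc
  have hdet' : (a : ℝ) * d - b * c = 1 := by exact_mod_cast hdet
  have ht' : (2 : ℝ) < a + d := by exact_mod_cast ht
  simp only [attr]
  push_cast
  have e1 : (d : ℝ) + a = a + d := by ring
  rw [e1]
  have hs : Real.sqrt (((a : ℝ) + d) ^ 2 - 4) * Real.sqrt (((a : ℝ) + d) ^ 2 - 4) =
      ((a : ℝ) + d) ^ 2 - 4 := Real.mul_self_sqrt (by nlinarith)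
  set s := Real.sqrt (((a : ℝ) + d) ^ 2 - 4) with hsdef
  have hprod : ((d : ℝ) - a + s) * (a - d + s) = 4 * b * c := by
    nlinarith [hs, hdet']
  have hne : (a : ℝ) - d + s ≠ 0 := by
    intro h0
    rw [h0, mul_zero] at hprod
    exact mul_ne_zero (mul_ne_zero (by norm_num) hb') hc' hprod.symm
  rw [div_div_eq_mul_div, div_eq_div_iff (by
    simpa using hb') hne, hprod]
  ring

theorem lev_tt (k : Fin 54) (hk : cr k = true) : lev (tt k) = lev k + 1 := by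
  have h1 : ∀ k : Fin 54, cr k = true → levMat (tt k) =
      ((levMat k).1 + (levMat k).2.2.1,
        (levMat k).2.1 + (levMat k).2.2.2 - (levMat k).1 - (levMat k).2.2.1,
        (levMat k).2.2.1, (levMat k).2.2.2 - (levMat k).2.2.1) := by decide +kernel
  have h2 : ∀ k : Fin 54, (levMat k).2.2.1 ≠ 0 := by decide +kernel
  unfold lev
  rw [h1 k hk]
  exact F1b_attr_T _ (h2 k)

theorem lev_sg (k : Fin 54) (hk : cr k = true) : lev (sg k) = -1 / lev k := by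
  have h1 : ∀ k : Fin 54, cr k = true → levMat (sg k) =
      ((levMat k).2.2.2, -(levMat k).2.2.1, -(levMat k).2.1, (levMat k).1) := by decide +kernel
  have h2 : ∀ k : Fin 54, (levMat k).1 * (levMat k).2.2.2 - (levMat k).2.1 * (levMat k).2.2.1 = 1 ∧
      (levMat k).2.1 ≠ 0 ∧ (levMat k).2.2.1 ≠ 0 ∧ 2 < (levMat k).1 + (levMat k).2.2.2 := by
    decide +kernel
  unfold lev
  rw [h1 k hk]
  exact F1b_attr_S _ (h2 k).1 (h2 k).2.1 (h2 k).2.2.1 (h2 k).2.2.2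

/-- `ρ⁻¹(z) = 1 / (1 - z)` shifts the index by 18. -/
theorem lev_rho (k : Fin 54) : lev (k + 18) = 1 / (1 - lev k) := by
  have h1 : ∀ k : Fin 54, levMat (k + 18) =
      ((levMat k).2.2.2 + (levMat k).2.2.1, -(levMat k).2.2.1,
        -((levMat k).2.1 - (levMat k).2.2.2 + (levMat k).1 - (levMat k).2.2.1),
        (levMat k).1 - (levMat k).2.2.1) := by decide +kernel
  have h2 : ∀ k : Fin 54,
      ((levMat k).1 - (levMat k).2.2.1) * ((levMat k).2.2.2 + (levMat k).2.2.1) -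
        ((levMat k).2.1 - (levMat k).2.2.2 + (levMat k).1 - (levMat k).2.2.1) *
          (levMat k).2.2.1 = 1 ∧
      ((levMat k).2.1 - (levMat k).2.2.2 + (levMat k).1 - (levMat k).2.2.1) ≠ 0 ∧
      (levMat k).2.2.1 ≠ 0 ∧
      2 < ((levMat k).1 - (levMat k).2.2.1) + ((levMat k).2.2.2 + (levMat k).2.2.1) := by
    decide +kernel
  have h3 := F1b_attr_S ((levMat k).1 - (levMat k).2.2.1,
    (levMat k).2.1 - (levMat k).2.2.2 + (levMat k).1 - (levMat k).2.2.1, (levMat k).2.2.1,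
    (levMat k).2.2.2 + (levMat k).2.2.1) (h2 k).1 (h2 k).2.1 (h2 k).2.2.1 (h2 k).2.2.2
  unfold lev
  rw [h1 k, h3, F1b_attr_Ti _ (h2 k).2.2.1]
  rw [neg_div, ← div_neg, neg_sub]

end Pool.AML
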