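import Pool.Agent.AML.F.T

/-! [AML-F1a] Rational bounds for the 54 levels `lev k = ((a - d) + √((a + d)² - 4)) / (2c)`,
`(a, b, c, d) = levMat k`; `(a + d)² - 4 ∈ {12, 96}`.

Bounds: `3.46410 < √12 < 3.46411`, `9.79795 < √96 < 9.79797`. All inequalities are reduced to an integer
table check (`F1a_tab`). -/

set_option linter.style.longLine false

namespace Pool.AML

/-- the integer inequalities which imply the bounds, for the numerators `s0 < 10⁵ √D < s1`. -/
def F1aOk (a c d q s0 s1 : ℤ) : Bool :=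
  (decide (0 < c) && decide (200 * c * q < 100000 * (a - d) + s0) &&
    decide (100000 * (a - d) + s1 < 200 * c * (q + 1))) ||
  (decide (c < 0) && decide (100000 * (a - d) + s1 < 200 * c * q) &&
    decide (200 * c * (q + 1) < 100000 * (a - d) + s0))

/-- table check for one matrix. -/
def F1aChk (m : ℤ × ℤ × ℤ × ℤ) (q : ℤ) : Bool :=
  (decide ((m.1 + m.2.2.2) ^ 2 - 4 = 12) && F1aOk m.1 m.2.2.1 m.2.2.2 q 346410 346411) ||
  (decide ((m.1 + m.2.2.2) ^ 2 - 4 = 96) && F1aOk m.1 m.2.2.1 m.2.2.2 q 979795 979797)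

theorem F1a_tab : ∀ k : Fin 54, F1aChk (levMat k) (q k) = true := by decide +kernel

theorem F1a_ok {a c d q s0 s1 : ℤ} {s : ℝ} (h0 : (s0 : ℝ) < 100000 * s) (h1 : 100000 * s < (s1 : ℝ))
    (h : F1aOk a c d q s0 s1 = true) :
    (q : ℝ) / 1000 < ((a : ℝ) - d + s) / (2 * c) ∧ ((a : ℝ) - d + s) / (2 * c) < ((q : ℝ) + 1) / 1000 := by
  unfold F1aOk at h
  simp only [Bool.or_eq_true, Bool.and_eq_true, decide_eq_true_eq] at h
  rcases h with ⟨⟨hc, hA⟩, hB⟩ | ⟨⟨hc, hA⟩, hB⟩
  · have hc' : (0 : ℝ) < c := by exact_mod_cast hc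
    have hA' : 200 * (c : ℝ) * q < 100000 * (a - d) + s0 := by exact_mod_cast hA
    have hB' : 100000 * ((a : ℝ) - d) + s1 < 200 * c * (q + 1) := by exact_mod_cast hB
    constructor
    · rw [div_lt_div_iff₀ (by norm_num) (by positivity)]
      nlinarith
    · rw [div_lt_div_iff₀ (by positivity) (by norm_num)]
      nlinarith
  · have hc' : (c : ℝ) < 0 := by exact_mod_cast hc
    have hA' : 100000 * ((a : ℝ) - d) + s1 < 200 * c * q := by exact_mod_cast hA
    have hB' : 200 * (c : ℝ) * (q + 1) < 100000 * (a - d) + s0 := by exact_mod_cast hB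
    constructor
    · rw [lt_div_iff_of_neg (by linarith)]
      linarith
    · rw [div_lt_iff_of_neg (by linarith)]
      linarith

theorem lev_bounds (k : Fin 54) : (q k : ℝ) / 1000 < lev k ∧ lev k < ((q k : ℝ) + 1) / 1000 := by
  have h := F1a_tab k
  unfold F1aChk at h
  simp only [Bool.or_eq_true, Bool.and_eq_true, decide_eq_true_eq] at h
  unfold lev attr
  have hcast : ((levMat k).1 : ℝ) - (levMat k).2.2.2 = ((levMat k).1 : ℝ) - (levMat k).2.2.2 := rfl
  rcases h with ⟨hD, hok⟩ | ⟨hD, hok⟩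
  · have hD' : (((levMat k).1 : ℝ) + (levMat k).2.2.2) ^ 2 - 4 = 12 := by exact_mod_cast hD
    rw [hD']
    refine F1a_ok ?_ ?_ hok
    · have : (3.46410 : ℝ) < Real.sqrt 12 := Real.lt_sqrt_of_sq_lt (by norm_num)
      push_cast
      linarith
    · have : Real.sqrt 12 < (3.46411 : ℝ) := by
        rw [Real.sqrt_lt' (by norm_num)]; norm_num
      push_cast
      linarith
  · have hD' : (((levMat k).1 : ℝ) + (levMat k).2.2.2) ^ 2 - 4 = 96 := by exact_mod_cast hD
    rw [hD']
    refine F1a_ok ?_ ?_ hok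
    · have : (9.79795 : ℝ) < Real.sqrt 96 := Real.lt_sqrt_of_sq_lt (by norm_num)
      push_cast
      linarith
    · have : Real.sqrt 96 < (9.79797 : ℝ) := by
        rw [Real.sqrt_lt' (by norm_num)]; norm_num
      push_cast
      linarith

end Pool.AML
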