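import Pool.Agent.AML.F.F1

/-! [AML-F2] Order consequences of the numerical table: from `lev_bounds`, all statements reduce to
decidable statements on the integer table `q`. -/

set_option linter.style.longLine false

namespace Pool.AML

theorem F2_tab_lt : ∀ j k : Fin 54, j < k → (k.1 < 36 ∨ 36 ≤ j.1) → q j + 1 ≤ q k := by
  decide +kernel

theorem F2_tab_neg : ∀ k : Fin 54, 36 ≤ k.1 → q k + 1 ≤ 0 := by decide +kernel

theorem F2_tab_pos : ∀ k : Fin 54, k.1 < 36 → 0 ≤ q k := by decide +kernel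

theorem F2_tab_lt_one : ∀ k : Fin 54, k.1 < 18 → q k + 1 ≤ 1000 := by decide +kernel

theorem F2_tab_one_lt : ∀ k : Fin 54, 18 ≤ k.1 → k.1 < 36 → 1000 ≤ q k := by decide +kernel

theorem F2_tab_sep : ∀ k k' : Fin 54, 0 < ell k → 0 < ell k' → k ≠ k' →
    11 ≤ (q k - q k') % 1000 ∧ (q k - q k') % 1000 ≤ 989 := by decide +kernel

theorem F2_lt {j k : Fin 54} (h : q j + 1 ≤ q k) : lev j < lev k := by
  have h1 := (lev_bounds j).2
  have h2 := (lev_bounds k).1
  have h3 : (q j : ℝ) + 1 ≤ q k := by exact_mod_cast h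
  have h4 : ((q j : ℝ) + 1) / 1000 ≤ (q k : ℝ) / 1000 := by
    apply div_le_div_of_nonneg_right h3 (by norm_num)
  linarith

/-- levels `0..17` in `(0,1)`, increasing; `18..35` in `(1,∞)`, `36..53` in `(-∞,0)`. -/
theorem lev_lt {j k : Fin 54} (h : j < k) (hs : k.1 < 36 ∨ 36 ≤ j.1) : lev j < lev k :=
  F2_lt (F2_tab_lt j k h hs)

theorem lev_neg {k : Fin 54} (h : 36 ≤ k.1) : lev k < 0 := by
  have h1 := (lev_bounds k).2
  have h3 : (q k : ℝ) + 1 ≤ 0 := by exact_mod_cast F2_tab_neg k h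
  have h4 : ((q k : ℝ) + 1) / 1000 ≤ 0 := div_nonpos_of_nonpos_of_nonneg h3 (by norm_num)
  linarith

theorem lev_pos {k : Fin 54} (h : k.1 < 36) : 0 < lev k := by
  have h1 := (lev_bounds k).1
  have h3 : (0 : ℝ) ≤ q k := by exact_mod_cast F2_tab_pos k h
  have h4 : (0 : ℝ) ≤ (q k : ℝ) / 1000 := by positivity
  linarith

theorem lev_lt_one {k : Fin 54} (h : k.1 < 18) : lev k < 1 := by
  have h1 := (lev_bounds k).2
  have h3 : (q k : ℝ) + 1 ≤ 1000 := by exact_mod_cast F2_tab_lt_one k h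
  have h4 : ((q k : ℝ) + 1) / 1000 ≤ 1 := by
    rw [div_le_one (by norm_num)]; exact h3
  linarith

theorem one_lt_lev {k : Fin 54} (h : 18 ≤ k.1) (h' : k.1 < 36) : 1 < lev k := by
  have h1 := (lev_bounds k).1
  have h3 : (1000 : ℝ) ≤ q k := by exact_mod_cast F2_tab_one_lt k h h'
  have h4 : (1 : ℝ) ≤ (q k : ℝ) / 1000 := by
    rw [le_div_iff₀ (by norm_num)]; linarith
  linarith

theorem F2_ne {j k : Fin 54} (hjk : j < k) : lev j ≠ lev k := by
  by_cases h1 : k.1 < 36
  · exact (lev_lt hjk (Or.inl h1)).ne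
  · by_cases h2 : 36 ≤ j.1
    · exact (lev_lt hjk (Or.inr h2)).ne
    · have h3 := lev_neg (k := k) (by omega)
      have h4 := lev_pos (k := j) (by omega)
      intro h
      linarith

theorem lev_inj {j k : Fin 54} (h : lev j = lev k) : j = k := by
  rcases lt_trichotomy j k with h1 | h1 | h1
  · exact absurd h (F2_ne h1)
  · exact h1
  · exact absurd h.symm (F2_ne h1)

theorem lev_ne_zero (k : Fin 54) : lev k ≠ 0 := by
  by_cases h : k.1 < 36
  · exact (lev_pos h).ne'
  · exact (lev_neg (by omega)).ne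

/-- different right ends are not congruent modulo `ℤ`, even approximately. -/
theorem lev_sep (k k' : Fin 54) (n : ℤ) (hk : 0 < ell k) (hk' : 0 < ell k')
    (h : |lev k - lev k' - n| < 1 / 100) : k = k' ∧ n = 0 := by
  obtain ⟨a1, a2⟩ := lev_bounds k
  obtain ⟨b1, b2⟩ := lev_bounds k'
  obtain ⟨h1, h2⟩ := abs_lt.1 h
  have a1' : (q k : ℝ) < 1000 * lev k := by linarith
  have a2' : 1000 * lev k < (q k : ℝ) + 1 := by linarith
  have b1' : (q k' : ℝ) < 1000 * lev k' := by linarith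
  have b2' : 1000 * lev k' < (q k' : ℝ) + 1 := by linarith
  have u1 : (q k : ℝ) - q k' - 1000 * n < 11 := by linarith
  have u2 : (-11 : ℝ) < (q k : ℝ) - q k' - 1000 * n := by linarith
  have u1' : q k - q k' - 1000 * n < 11 := by exact_mod_cast u1
  have u2' : -11 < q k - q k' - 1000 * n := by exact_mod_cast u2
  by_cases hkk : k = k'
  · refine ⟨hkk, ?_⟩
    subst hkk
    omega
  · exfalso
    obtain ⟨h3, h4⟩ := F2_tab_sep k k' hk hk' hkk
    omega

end Pool.AML
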