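import Pool.Agent.AML.F.Defs
import Pool.Agent.AML.F.F1
import Pool.Agent.AML.F.F2
import Pool.Agent.AML.C.C1

/-! [AML-F3] The nodes `nu 0 < nu 1 < ... < nu 36` of `[0,1]` and the arcs `Parc`.

`nu_lt`: consecutive nodes are increasing (`lev_lt`, `lev_pos`, `lev_lt_one` of F2, midpoints by `linarith`); then
`strictMonoOn` on `{0..36}` (`Nat.rec`/`interval_cases`). `nu_cover`: every `x ∈ [0,1]` lies in some
`[nu i, nu (i+1)]`, `i < 36` (take the largest `i ≤ 36` with `nu i ≤ x`, `Nat.findGreatest`).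
`Parc_rho`: in the three sectors; `sec (a - 36)`, `ix (a - 36) = ix a` by `decide`; use `SS_SS`, `TS3` (C1) and
`TT (SS (SS ((x - 1 : ℝ)))) = x`. `Parc_zero`: `pp a 0` is the odd node of `ix a`, equal to
`lev (ix a / 2)` resp. ... ; then `lev_rho` (F1b) for the sectors `1, 2` (`TT (SS x) = 1 - 1/x`,
`SS (x - 1) = 1 / (1 - x)`; `lev (k+18) = 1 / (1 - lev k)`, and applying it twice or three times:
`1 - 1 / lev k = lev (k + 36)`). `Parc_one`: both arcs have the same value of `pp` at `u = 1`, an even node; across the sector boundaries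
(`a = 34, 35`: `1`; `a = 70, 71`: `∞`; `a = 106, 107`: `0`) compute. -/

set_option linter.style.longLine false

open Topology Set

namespace Pool.AML

/-! auxiliary lemmas -/

private noncomputable def f3L (k : ℕ) : ℝ := lev ⟨k % 54, Nat.mod_lt _ (by norm_num)⟩

private theorem f3L_lt {j k : ℕ} (h : j < k) (hk : k < 18) : f3L j < f3L k := by
  unfold f3L
  apply lev_lt
  · rw [Fin.lt_def]
    simp only
    rw [Nat.mod_eq_of_lt (by omega), Nat.mod_eq_of_lt (by omega)]
    exact h
  · left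
    simp only
    rw [Nat.mod_eq_of_lt (by omega)]
    omega

private theorem f3L_pos {k : ℕ} (hk : k < 18) : 0 < f3L k := by
  unfold f3L
  apply lev_pos
  simp only
  rw [Nat.mod_eq_of_lt (by omega)]
  omega

private theorem f3L_lt_one {k : ℕ} (hk : k < 18) : f3L k < 1 := by
  unfold f3L
  apply lev_lt_one
  simp only
  rw [Nat.mod_eq_of_lt (by omega)]
  omega

private theorem f3_nu0 : nu 0 = 0 := by simp [nu]

private theorem f3_nu36 : nu 36 = 1 := by simp [nu]

private theorem f3_nu_odd {k : ℕ} (hk : k < 18) : nu (2 * k + 1) = f3L k := by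
  unfold nu f3L
  rw [if_neg (by omega), if_neg (by omega), if_pos (by omega)]
  congr 2
  congr 1
  omega

private theorem f3_nu_even {k : ℕ} (hk : k < 17) : nu (2 * k + 2) = (f3L k + f3L (k + 1)) / 2 := by
  unfold nu f3L
  rw [if_neg (by omega), if_neg (by omega), if_neg (by omega)]
  have e2 : (2 * k + 2) / 2 = k + 1 := by omega
  simp only [e2, Nat.add_sub_cancel]

private theorem f3_step {i : ℕ} (hi : i < 36) : nu i < nu (i + 1) := by
  rcases Nat.even_or_odd' i with ⟨c, hc | hc⟩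
  · rcases Nat.eq_zero_or_pos c with h0 | h0
    · subst h0
      have : i = 0 := by omega
      subst this
      have h1 := f3_nu_odd (k := 0) (by norm_num)
      simp only [Nat.mul_zero, Nat.zero_add] at h1
      rw [f3_nu0]
      show (0 : ℝ) < nu (0 + 1)
      rw [Nat.zero_add, h1]
      exact f3L_pos (by norm_num)
    · obtain ⟨k, rfl⟩ : ∃ k, c = k + 1 := ⟨c - 1, by omega⟩
      have e1 : i = 2 * k + 2 := by omega
      have e2 : i + 1 = 2 * (k + 1) + 1 := by omega
      rw [e2, e1, f3_nu_even (by omega), f3_nu_odd (by omega)]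
      have := f3L_lt (j := k) (k := k + 1) (by omega) (by omega)
      linarith
  · by_cases h17 : c = 17
    · subst h17
      have e1 : i = 2 * 17 + 1 := by omega
      rw [e1, f3_nu_odd (by omega)]
      show f3L 17 < nu 36
      rw [f3_nu36]
      exact f3L_lt_one (by norm_num)
    · have e1 : i = 2 * c + 1 := by omega
      have e2 : i + 1 = 2 * c + 2 := by omega
      rw [e2, e1, f3_nu_even (by omega), f3_nu_odd (by omega)]
      have := f3L_lt (j := c) (k := c + 1) (by omega) (by omega)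
      linarith

private theorem f3_ix_lt (a : Fin 108) : ix a < 36 := by
  unfold ix
  exact Nat.mod_lt _ (by norm_num)

private theorem f3_coe_cont : Continuous (fun x : ℝ => (x : OnePoint ℝ)) := OnePoint.continuous_coe

private theorem f3_ix_sub (a : Fin 108) : ix (a - 36) = ix a := by
  revert a; decide

private theorem f3_pp_sub (a : Fin 108) (u : ℝ) : pp (a - 36) u = pp a u := by
  unfold pp
  rw [f3_ix_sub]

private theorem f3_sec (a : Fin 108) : (sec a = 0 ∧ sec (a - 36) = 2) ∨ (sec a = 1 ∧ sec (a - 36) = 0) ∨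
    (sec a = 2 ∧ sec (a - 36) = 1) := by
  revert a; decide

private theorem f3_P0 {a : Fin 108} (h : sec a = 0) (u : ℝ) : Parc a u = ((pp a u : ℝ) : OnePoint ℝ) := by
  unfold Parc
  rw [if_pos h]

private theorem f3_P1 {a : Fin 108} (h : sec a = 1) (u : ℝ) :
    Parc a u = SS ((pp a u - 1 : ℝ) : OnePoint ℝ) := by
  unfold Parc
  rw [if_neg (by omega), if_pos h]

private theorem f3_P2 {a : Fin 108} (h : sec a = 2) (u : ℝ) :
    Parc a u = TT (SS ((pp a u : ℝ) : OnePoint ℝ)) := by
  unfold Parc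
  rw [if_neg (by omega), if_neg (by omega)]

private theorem f3_pp_zero (a : Fin 108) : pp a 0 = f3L (ix a / 2) := by
  have hi := f3_ix_lt a
  unfold pp
  by_cases h : ix a % 2 = 0
  · rw [if_pos h]
    have e : ix a + 1 = 2 * (ix a / 2) + 1 := by omega
    rw [e, f3_nu_odd (by omega)]
    ring
  · rw [if_neg h]
    have e := f3_nu_odd (k := ix a / 2) (by omega)
    have e' : 2 * (ix a / 2) + 1 = ix a := by omega
    rw [e'] at e
    rw [e]
    ring

private theorem f3_pp_one_even {a : Fin 108} (h : ix a % 2 = 0) : pp a 1 = nu (ix a) := by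
  unfold pp
  rw [if_pos h]
  ring

private theorem f3_pp_one_odd {a : Fin 108} (h : ix a % 2 = 1) : pp a 1 = nu (ix a + 1) := by
  unfold pp
  rw [if_neg (by omega)]
  ring

private theorem f3_nodeC (a : Fin 108) :
    (sec a = 0 → (nodeC a).1 = ix a / 2) ∧ (sec a = 1 → (nodeC a).1 = ix a / 2 + 18) ∧
      (sec a = 2 → (nodeC a).1 = ix a / 2 + 36) := by
  revert a; decide

private theorem f3_up (a : Fin 108) (h : isUp a = true) : ix a % 2 = 1 ∧
    ((ix (a + 1) = ix a + 1 ∧ sec (a + 1) = sec a) ∨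
      (ix a = 35 ∧ ix (a + 1) = 0 ∧ ((sec a = 0 ∧ sec (a + 1) = 1) ∨ (sec a = 1 ∧ sec (a + 1) = 2) ∨
        (sec a = 2 ∧ sec (a + 1) = 0)))) := by
  revert a; decide

private theorem f3_sec_lt (a : Fin 108) : sec a = 0 ∨ sec a = 1 ∨ sec a = 2 := by
  revert a; decide

private theorem f3_dn (a : Fin 108) (h : ¬ isUp a = true) : isUp (a - 1) = true := by
  revert a; decide

private theorem f3_one_up (a : Fin 108) (h : isUp a = true) : Parc a 1 = Parc (a + 1) 1 := by
  obtain ⟨hodd, h1 | h1⟩ := f3_up a h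
  · obtain ⟨h1, h2⟩ := h1
    have hp : pp a 1 = pp (a + 1) 1 := by
      rw [f3_pp_one_odd hodd, f3_pp_one_even (a := a + 1) (by omega), h1]
    rcases f3_sec_lt a with h3 | h3 | h3
    · rw [f3_P0 h3, f3_P0 (h2.trans h3), hp]
    · rw [f3_P1 h3, f3_P1 (h2.trans h3), hp]
    · rw [f3_P2 h3, f3_P2 (h2.trans h3), hp]
  · obtain ⟨h1, h2, h3⟩ := h1
    have hp : pp a 1 = 1 := by
      rw [f3_pp_one_odd hodd, h1]
      exact f3_nu36
    have hp' : pp (a + 1) 1 = 0 := by
      rw [f3_pp_one_even (by omega), h2]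
      exact f3_nu0
    rcases h3 with ⟨h3, h4⟩ | ⟨h3, h4⟩ | ⟨h3, h4⟩
    · rw [f3_P0 h3, f3_P1 h4, hp, hp', SS_coe (by norm_num)]
      norm_num
    · rw [f3_P1 h3, f3_P2 h4, hp, hp', sub_self, SS_zero, TT_infty]
    · rw [f3_P2 h3, f3_P0 h4, hp, hp', SS_coe (by norm_num), TT_coe]
      norm_num

theorem nu_lt {i j : ℕ} (h : i < j) (hj : j ≤ 36) : nu i < nu j := by
  induction j with
  | zero => omega
  | succ n ih =>
    rcases Nat.lt_succ_iff_lt_or_eq.mp h with h1 | h1
    · exact (ih h1 (by omega)).trans (f3_step (by omega))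
    · subst h1
      exact f3_step (by omega)

theorem nu_zero : nu 0 = 0 := f3_nu0

theorem nu_last : nu 36 = 1 := f3_nu36

theorem nu_cover {x : ℝ} (h0 : 0 ≤ x) (h1 : x ≤ 1) : ∃ i < 36, nu i ≤ x ∧ x ≤ nu (i + 1) := by
  have key : ∀ n ≤ 36, x ≤ nu n → ∃ i < 36, nu i ≤ x ∧ x ≤ nu (i + 1) := by
    intro n
    induction n with
    | zero =>
      intro _ hx
      refine ⟨0, by norm_num, ?_, hx.trans (nu_lt (by norm_num) (by norm_num)).le⟩
      rw [nu_zero]; exact h0
    | succ n ih =>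
      intro hn hx
      by_cases h : x ≤ nu n
      · exact ih (by omega) h
      · exact ⟨n, by omega, (not_le.mp h).le, hx⟩
  exact key 36 le_rfl (by rw [nu_last]; exact h1)

theorem pp_mem (a : Fin 108) {u : ℝ} (h0 : 0 ≤ u) (h1 : u ≤ 1) :
    nu (ix a) ≤ pp a u ∧ pp a u ≤ nu (ix a + 1) := by
  have hs := f3_step (f3_ix_lt a)
  unfold pp
  split_ifs with h
  · constructor <;> nlinarith
  · constructor <;> nlinarith

theorem continuous_pp (a : Fin 108) : Continuous (pp a) := by
  unfold pp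
  split_ifs <;> fun_prop

theorem pp_inj (a : Fin 108) {u v : ℝ} (h : pp a u = pp a v) : u = v := by
  have hs := f3_step (f3_ix_lt a)
  unfold pp at h
  split_ifs at h with h1
  · have h2 : (u - v) * (nu (ix a) - nu (ix a + 1)) = 0 := by linarith
    rcases mul_eq_zero.mp h2 with h3 | h3 <;> linarith
  · have h2 : (u - v) * (nu (ix a + 1) - nu (ix a)) = 0 := by linarith
    rcases mul_eq_zero.mp h2 with h3 | h3 <;> linarith

theorem continuous_Parc (a : Fin 108) : Continuous (Parc a) := by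
  have hc := continuous_pp a
  rcases f3_sec_lt a with h | h | h
  · have e : Parc a = fun u => ((pp a u : ℝ) : OnePoint ℝ) := funext (f3_P0 h)
    rw [e]
    exact OnePoint.continuous_coe.comp hc
  · have e : Parc a = fun u => SS ((pp a u - 1 : ℝ) : OnePoint ℝ) := funext (f3_P1 h)
    rw [e]
    exact continuous_SS.comp (OnePoint.continuous_coe.comp (hc.sub continuous_const))
  · have e : Parc a = fun u => TT (SS ((pp a u : ℝ) : OnePoint ℝ)) := funext (f3_P2 h)
    rw [e]
    exact continuous_TT.comp (continuous_SS.comp (OnePoint.continuous_coe.comp hc))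

/-- `ρ = TT ∘ SS` maps arc `a` to arc `a - 36`. -/
theorem Parc_rho (a : Fin 108) (u : ℝ) : TT (SS (Parc a u)) = Parc (a - 36) u := by
  rcases f3_sec a with ⟨h, h'⟩ | ⟨h, h'⟩ | ⟨h, h'⟩
  · rw [f3_P0 h, f3_P2 h', f3_pp_sub]
  · rw [f3_P1 h, f3_P0 h', f3_pp_sub, SS_SS, TT_coe]
    congr 1
    ring
  · rw [f3_P2 h, f3_P1 h', f3_pp_sub]
    have h3 := TS3 (SS (TTi ((pp a u : ℝ) : OnePoint ℝ)))
    rw [SS_SS, TT_TTi] at h3
    rw [h3, TTi_coe]

theorem Parc_zero (a : Fin 108) : Parc a 0 = ((lev (nodeC a) : ℝ) : OnePoint ℝ) := by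
  obtain ⟨n0, n1, n2⟩ := f3_nodeC a
  have hi := f3_ix_lt a
  set k : Fin 54 := ⟨(ix a / 2) % 54, Nat.mod_lt _ (by norm_num)⟩ with hk
  have hk1 : k.1 = ix a / 2 := by
    rw [hk]
    simp only
    rw [Nat.mod_eq_of_lt (by omega)]
  have hkl : f3L (ix a / 2) = lev k := rfl
  have hk18 : k.1 < 18 := by omega
  have hlt := lev_lt_one hk18
  have hpos : 0 < lev k := lev_pos (by omega)
  have e18 : (k + 18 : Fin 54).1 = k.1 + 18 := by
    rw [Fin.val_add]
    show (k.1 + 18) % 54 = k.1 + 18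
    rw [Nat.mod_eq_of_lt (by omega)]
  have e36 : (k + 18 + 18 : Fin 54).1 = k.1 + 36 := by
    rw [Fin.val_add, e18]
    show (k.1 + 18 + 18) % 54 = k.1 + 36
    rw [Nat.mod_eq_of_lt (by omega)]
  rcases f3_sec_lt a with h | h | h
  · rw [f3_P0 h, f3_pp_zero, hkl]
    have : nodeC a = k := Fin.ext (by rw [n0 h, hk1])
    rw [this]
  · rw [f3_P1 h, f3_pp_zero, hkl, SS_coe (by linarith)]
    have : nodeC a = k + 18 := Fin.ext (by rw [n1 h, e18, hk1])
    rw [this, lev_rho]
    congr 1
    have h1 : lev k - 1 ≠ 0 := by linarith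
    have h2 : 1 - lev k ≠ 0 := by linarith
    rw [div_eq_div_iff h1 h2]
    ring
  · rw [f3_P2 h, f3_pp_zero, hkl, SS_coe hpos.ne', TT_coe]
    have : nodeC a = k + 18 + 18 := Fin.ext (by rw [n2 h, e36, hk1])
    rw [this, lev_rho, lev_rho]
    congr 1
    have h2 : 1 - lev k ≠ 0 := by linarith
    have h3 : lev k ≠ 0 := hpos.ne'
    have h4 : 1 - 1 / (1 - lev k) = - lev k / (1 - lev k) := by
      field_simp
      ring
    rw [h4]
    field_simp
    ring

/-- the two arcs at a node of type `B`. -/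
theorem Parc_one (a : Fin 108) : Parc a 1 = Parc (if isUp a then a + 1 else a - 1) 1 := by
  by_cases h : isUp a = true
  · rw [if_pos h]
    exact f3_one_up a h
  · rw [if_neg h]
    have := f3_one_up (a - 1) (f3_dn a h)
    rw [sub_add_cancel] at this
    exact this.symm

end Pool.AML
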