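import Pool.Agent.AML.F.F3

/-! [AML-F4] The arcs cover the circle and overlap only at the nodes.

Sectors: `f ∈ OnePoint ℝ` is `x ∈ [0,1]` (sector 0), or `SS (p - 1)` with `p ∈ [0,1]` (sector 1: `f = 1/(1-p) ∈ [1,∞]`),
or `TT (SS p)` with `p ∈ [0,1]` (sector 2: `f = 1 - 1/p ∈ [-∞, 0]`, `p = 0` gives `∞`). Surjectivity: `nu_cover` and
`sec`, `ix` determine the arc (`a = 36 s + i - 1`).
Injectivity (`Parc_eq`): compare sectors. Same sector: `SS`, `TT` are injective so `pp a u = pp b v =: x ∈ [0,1]`, then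
`ix a = ix b` (so `a = b`, `u = v`), or `|ix a - ix b| = 1` and `x` is the common node: `u = v = 1` at an even node,
`u = v = 0` at an odd node. Different sectors: the common point is `0`, `1` or `∞`, both parameters are `1`
(`x = 0` or `1` is an even node), and `{a, b}` is `{106, 107}`, `{34, 35}` or `{70, 71}`.
Useful: real values: sector 1 points are `1/(1-p) ≥ 1` or `∞`, sector 2 points are `1 - 1/p ≤ 0` or `∞`. -/

set_option linter.style.longLine false

open Topology Set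

namespace Pool.AML

theorem F4_sec (a : Fin 108) : sec a = 0 ∨ sec a = 1 ∨ sec a = 2 := by revert a; decide +kernel

theorem F4_ix (a : Fin 108) : ix a < 36 := by revert a; decide +kernel

/-- the arc with given sector and index. -/
theorem F4_arc {s i : ℕ} (hs : s < 3) (hi : i < 36) : ∃ a : Fin 108, sec a = s ∧ ix a = i := by
  have h : ∀ s : Fin 3, ∀ i : Fin 36, ∃ a : Fin 108, sec a = s.1 ∧ ix a = i.1 := by decide +kernel
  exact h ⟨s, hs⟩ ⟨i, hi⟩

theorem F4_same : ∀ a b : Fin 108, sec a = sec b → ix a = ix b → a = b := by decide +kernel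

theorem F4_next : ∀ a b : Fin 108, sec a = sec b → ix a + 1 = ix b →
    (ix a % 2 = 0 → b = arcAt (nodeC a) (!isUp a) ∧ a = arcAt (nodeC b) (!isUp b)) ∧
    (ix a % 2 = 1 → b = (if isUp a then a + 1 else a - 1) ∧ a = (if isUp b then b + 1 else b - 1)) := by
  decide +kernel

theorem F4_cross : ∀ a b : Fin 108, sec b = (sec a + 1) % 3 → ix a = 35 → ix b = 0 →
    b = (if isUp a then a + 1 else a - 1) ∧ a = (if isUp b then b + 1 else b - 1) := by
  decide +kernel

theorem F4_nu_pos {i : ℕ} (h : 0 < i) (h' : i ≤ 36) : 0 < nu i := by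
  rw [← nu_zero]; exact nu_lt h h'

theorem F4_nu_one {i : ℕ} (h : i < 36) : nu i < 1 := by
  rw [← nu_last]; exact nu_lt h le_rfl

theorem F4_nu_le {i j : ℕ} (h : i ≤ j) (h' : j ≤ 36) : nu i ≤ nu j := by
  rcases Nat.lt_or_eq_of_le h with h1 | h1
  · exact (nu_lt h1 h').le
  · rw [h1]

theorem F4_pp0 (a : Fin 108) {u : ℝ} (h0 : 0 ≤ u) (h1 : u ≤ 1) : 0 ≤ pp a u ∧ pp a u ≤ 1 := by
  have h := pp_mem a h0 h1
  have h2 := F4_ix a
  have h3 : 0 ≤ nu (ix a) := by rw [← nu_zero]; exact F4_nu_le (Nat.zero_le _) h2.le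
  have h4 : nu (ix a + 1) ≤ 1 := by rw [← nu_last]; exact F4_nu_le h2 le_rfl
  exact ⟨h3.trans h.1, h.2.trans h4⟩

/-- values of the parameter at the nodes. -/
theorem F4_even {a : Fin 108} (ha : ix a % 2 = 0) {u : ℝ} :
    (pp a u = nu (ix a) → u = 1) ∧ (pp a u = nu (ix a + 1) → u = 0) := by
  have h1 : nu (ix a) < nu (ix a + 1) := nu_lt (Nat.lt_succ_self _) (F4_ix a)
  unfold pp
  rw [if_pos ha]
  constructor
  · intro h
    have h2 : (u - 1) * (nu (ix a) - nu (ix a + 1)) = 0 := by linarith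
    rcases mul_eq_zero.1 h2 with h3 | h3 <;> linarith
  · intro h
    have h2 : u * (nu (ix a) - nu (ix a + 1)) = 0 := by linarith
    rcases mul_eq_zero.1 h2 with h3 | h3 <;> linarith

theorem F4_odd {a : Fin 108} (ha : ix a % 2 = 1) {u : ℝ} :
    (pp a u = nu (ix a) → u = 0) ∧ (pp a u = nu (ix a + 1) → u = 1) := by
  have h1 : nu (ix a) < nu (ix a + 1) := nu_lt (Nat.lt_succ_self _) (F4_ix a)
  unfold pp
  rw [if_neg (by omega)]
  constructor
  · intro h
    have h2 : u * (nu (ix a + 1) - nu (ix a)) = 0 := by linarith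
    rcases mul_eq_zero.1 h2 with h3 | h3 <;> linarith
  · intro h
    have h2 : (u - 1) * (nu (ix a + 1) - nu (ix a)) = 0 := by linarith
    rcases mul_eq_zero.1 h2 with h3 | h3 <;> linarith

theorem F4_surj {s : ℕ} (hs : s < 3) {p : ℝ} (h0 : 0 ≤ p) (h1 : p ≤ 1) :
    ∃ a : Fin 108, ∃ u : ℝ, 0 ≤ u ∧ u ≤ 1 ∧ sec a = s ∧ pp a u = p := by
  obtain ⟨i, hi, hl, hr⟩ := nu_cover h0 h1
  obtain ⟨a, hsa, hia⟩ := F4_arc hs hi
  have hlt : nu i < nu (i + 1) := nu_lt (Nat.lt_succ_self _) hi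
  have hd : 0 < nu (i + 1) - nu i := by linarith
  rcases Nat.mod_two_eq_zero_or_one i with h2 | h2
  · refine ⟨a, (nu (i + 1) - p) / (nu (i + 1) - nu i), div_nonneg (by linarith) hd.le,
      (div_le_one hd).2 (by linarith), hsa, ?_⟩
    unfold pp
    rw [hia, if_pos h2]
    field_simp
    ring
  · refine ⟨a, (p - nu i) / (nu (i + 1) - nu i), div_nonneg (by linarith) hd.le,
      (div_le_one hd).2 (by linarith), hsa, ?_⟩
    unfold pp
    rw [hia, if_neg (by omega)]
    field_simp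
    ring

theorem F4_S0 {a : Fin 108} (h : sec a = 0) (u : ℝ) : Parc a u = ((pp a u : ℝ) : OnePoint ℝ) := by
  unfold Parc; rw [if_pos h]

theorem F4_S1 {a : Fin 108} (h : sec a = 1) (u : ℝ) : Parc a u = SS ((pp a u - 1 : ℝ) : OnePoint ℝ) := by
  unfold Parc; rw [if_neg (by omega), if_pos h]

theorem F4_S2 {a : Fin 108} (h : sec a = 2) (u : ℝ) : Parc a u = TT (SS ((pp a u : ℝ) : OnePoint ℝ)) := by
  unfold Parc; rw [if_neg (by omega), if_neg (by omega)]

theorem F4_v1 {p : ℝ} (h : p ≠ 1) : SS ((p - 1 : ℝ) : OnePoint ℝ) = ((1 / (1 - p) : ℝ) : OnePoint ℝ) := by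
  have h1 : p - 1 ≠ 0 := sub_ne_zero.2 h
  have h2 : 1 - p ≠ 0 := fun h' => h (by linarith)
  rw [SS_coe h1]
  congr 1
  field_simp
  ring

theorem F4_v2 {p : ℝ} (h : p ≠ 0) : TT (SS ((p : ℝ) : OnePoint ℝ)) = ((1 - 1 / p : ℝ) : OnePoint ℝ) := by
  rw [SS_coe h, TT_coe]
  congr 1
  field_simp
  ring

theorem F4_coe_inj {x y : ℝ} (h : ((x : ℝ) : OnePoint ℝ) = ((y : ℝ) : OnePoint ℝ)) : x = y :=
  OnePoint.coe_injective h

theorem F4_ne_infty (x : ℝ) : ((x : ℝ) : OnePoint ℝ) ≠ OnePoint.infty := OnePoint.coe_ne_infty x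

theorem F4_SS_inj {f g : OnePoint ℝ} (h : SS f = SS g) : f = g := by
  rw [← SS_SS f, h, SS_SS]

theorem F4_TT_inj {f g : OnePoint ℝ} (h : TT f = TT g) : f = g := by
  rw [← TTi_TT f, h, TTi_TT]

theorem Parc_surj (f : OnePoint ℝ) : ∃ a : Fin 108, ∃ u : ℝ, 0 ≤ u ∧ u ≤ 1 ∧ Parc a u = f := by
  induction f using OnePoint.rec with
  | infty =>
    obtain ⟨a, u, h0, h1, hs, hp⟩ := F4_surj (s := 1) (by norm_num) (p := 1) zero_le_one le_rfl
    refine ⟨a, u, h0, h1, ?_⟩
    rw [F4_S1 hs, hp, sub_self, SS_zero]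
  | coe x =>
    by_cases hx0 : x < 0
    · have h2 : 0 < 1 - x := by linarith
      obtain ⟨a, u, h0, h1, hs, hp⟩ := F4_surj (s := 2) (by norm_num) (p := 1 / (1 - x))
        (by positivity) ((div_le_one h2).2 (by linarith))
      refine ⟨a, u, h0, h1, ?_⟩
      rw [F4_S2 hs, hp, F4_v2 (by positivity)]
      congr 1
      field_simp
      ring
    · push Not at hx0
      by_cases hx1 : x ≤ 1
      · obtain ⟨a, u, h0, h1, hs, hp⟩ := F4_surj (s := 0) (by norm_num) hx0 hx1
        exact ⟨a, u, h0, h1, by rw [F4_S0 hs, hp]⟩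
      · push Not at hx1
        have h2 : 0 < x := by linarith
        obtain ⟨a, u, h0, h1, hs, hp⟩ := F4_surj (s := 1) (by norm_num) (p := 1 - 1 / x)
          (by rw [sub_nonneg]; exact (div_le_one h2).2 hx1.le) (by
            have : 0 < 1 / x := by positivity
            linarith)
        refine ⟨a, u, h0, h1, ?_⟩
        rw [F4_S1 hs, hp, F4_v1 (by
          have : 0 < 1 / x := by positivity
          intro h; linarith)]
        congr 1
        field_simp
        ring

/-- same sector. -/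
theorem F4_eq_same {a b : Fin 108} {u v : ℝ} (hu : 0 ≤ u) (hu1 : u ≤ 1) (hv : 0 ≤ v) (hv1 : v ≤ 1)
    (hs : sec a = sec b) (h : pp a u = pp b v) : (a = b ∧ u = v) ∨
      (u = 1 ∧ v = 1 ∧ b = (if isUp a then a + 1 else a - 1)) ∨
      (u = 0 ∧ v = 0 ∧ b = arcAt (nodeC a) (!isUp a)) := by
  have ha := pp_mem a hu hu1
  have hb := pp_mem b hv hv1
  have ia := F4_ix a
  have ib := F4_ix b
  rcases lt_trichotomy (ix a) (ix b) with hlt | heq | hgt
  · have h1 : nu (ix a + 1) ≤ nu (ix b) := F4_nu_le hlt ib.le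
    have h2 : nu (ix a + 1) = nu (ix b) := by linarith [ha.2, hb.1]
    have h3 : ix a + 1 = ix b := by
      by_contra hne
      have h4 : ix a + 1 < ix b := by omega
      exact absurd h2 (nu_lt h4 ib.le).ne
    have h4 : pp a u = nu (ix a + 1) := by linarith [ha.2, hb.1]
    have h5 : pp b v = nu (ix b) := by linarith [ha.2, hb.1]
    have hn := F4_next a b hs h3
    rcases Nat.mod_two_eq_zero_or_one (ix a) with h6 | h6
    · right; right
      have h7 : ix b % 2 = 1 := by omega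
      exact ⟨(F4_even h6).2 h4, (F4_odd h7).1 h5, (hn.1 h6).1⟩
    · right; left
      have h7 : ix b % 2 = 0 := by omega
      exact ⟨(F4_odd h6).2 h4, (F4_even h7).1 h5, (hn.2 h6).1⟩
  · left
    have hab := F4_same a b hs heq
    subst hab
    exact ⟨rfl, pp_inj a h⟩
  · have h1 : nu (ix b + 1) ≤ nu (ix a) := F4_nu_le hgt ia.le
    have h2 : nu (ix b + 1) = nu (ix a) := by linarith [ha.1, hb.2]
    have h3 : ix b + 1 = ix a := by
      by_contra hne
      have h4 : ix b + 1 < ix a := by omega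
      exact absurd h2 (nu_lt h4 ia.le).ne
    have h4 : pp b v = nu (ix b + 1) := by linarith [ha.1, hb.2]
    have h5 : pp a u = nu (ix a) := by linarith [ha.1, hb.2]
    have hn := F4_next b a hs.symm h3
    rcases Nat.mod_two_eq_zero_or_one (ix b) with h6 | h6
    · right; right
      have h7 : ix a % 2 = 1 := by omega
      exact ⟨(F4_odd h7).1 h5, (F4_even h6).2 h4, (hn.1 h6).2⟩
    · right; left
      have h7 : ix a % 2 = 0 := by omega
      exact ⟨(F4_even h7).1 h5, (F4_odd h6).2 h4, (hn.2 h6).2⟩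

/-- consecutive sectors. -/
theorem F4_eq_next {a b : Fin 108} {u v : ℝ} (hu : 0 ≤ u) (hu1 : u ≤ 1) (hv : 0 ≤ v) (hv1 : v ≤ 1)
    (hs : sec b = (sec a + 1) % 3) (h : Parc a u = Parc b v) : ix a = 35 ∧ u = 1 ∧ ix b = 0 ∧ v = 1 := by
  have ha := F4_pp0 a hu hu1
  have hb := F4_pp0 b hv hv1
  have key : pp a u = 1 ∧ pp b v = 0 := by
    rcases F4_sec a with h1 | h1 | h1
    · have h2 : sec b = 1 := by rw [hs, h1]
      rw [F4_S0 h1, F4_S1 h2] at h
      by_cases h3 : pp b v = 1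
      · rw [h3, sub_self, SS_zero] at h
        exact absurd h (F4_ne_infty _)
      · rw [F4_v1 h3] at h
        have h4 := F4_coe_inj h
        have h5 : 0 < 1 - pp b v := by
          rcases lt_or_eq_of_le hb.2 with h6 | h6
          · linarith
          · exact absurd h6 h3
        have h6 : pp a u * (1 - pp b v) = 1 := by rw [h4]; field_simp
        have h7 : pp a u = 1 := by
          apply le_antisymm ha.2
          nlinarith [hb.1, ha.1]
        rw [h7] at h6
        exact ⟨h7, by linarith⟩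
    · have h2 : sec b = 2 := by rw [hs, h1]
      rw [F4_S1 h1, F4_S2 h2] at h
      by_cases h3 : pp a u = 1
      · by_cases h4 : pp b v = 0
        · exact ⟨h3, h4⟩
        · rw [h3, sub_self, SS_zero, F4_v2 h4] at h
          exact absurd h.symm (F4_ne_infty _)
      · by_cases h4 : pp b v = 0
        · rw [h4, SS_zero, TT_infty, F4_v1 h3] at h
          exact absurd h (F4_ne_infty _)
        · rw [F4_v1 h3, F4_v2 h4] at h
          have h5 := F4_coe_inj h
          have h6 : 0 < 1 - pp a u := by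
            rcases lt_or_eq_of_le ha.2 with h7 | h7
            · linarith
            · exact absurd h7 h3
          have h7 : 0 < pp b v := lt_of_le_of_ne hb.1 (Ne.symm h4)
          have h8 : 0 < 1 / (1 - pp a u) := by positivity
          have h9 : 1 ≤ 1 / pp b v := (one_le_div h7).2 hb.2
          linarith
    · have h2 : sec b = 0 := by rw [hs, h1]
      rw [F4_S2 h1, F4_S0 h2] at h
      by_cases h3 : pp a u = 0
      · rw [h3, SS_zero, TT_infty] at h
        exact absurd h.symm (F4_ne_infty _)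
      · rw [F4_v2 h3] at h
        have h4 := F4_coe_inj h
        have h7 : 0 < pp a u := lt_of_le_of_ne ha.1 (Ne.symm h3)
        have h9 : 1 ≤ 1 / pp a u := (one_le_div h7).2 ha.2
        have h10 : 1 / pp a u = 1 := by linarith [hb.1]
        have h11 : pp a u = 1 := by
          rw [div_eq_iff h7.ne'] at h10
          linarith
        exact ⟨h11, by linarith⟩
  have ma := pp_mem a hu hu1
  have mb := pp_mem b hv hv1
  have ia := F4_ix a
  have ib := F4_ix b
  have h35 : ix a = 35 := by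
    by_contra hne
    have h1 : nu (ix a + 1) < 1 := F4_nu_one (by omega)
    linarith [ma.2, key.1]
  have h0 : ix b = 0 := by
    by_contra hne
    have h1 : 0 < nu (ix b) := F4_nu_pos (Nat.pos_of_ne_zero hne) ib.le
    linarith [mb.1, key.2]
  refine ⟨h35, ?_, h0, ?_⟩
  · refine (F4_odd (a := a) (by omega)).2 ?_
    rw [h35, key.1, nu_last]
  · refine (F4_even (a := b) (by omega)).1 ?_
    rw [h0, key.2, nu_zero]

theorem Parc_eq {a b : Fin 108} {u v : ℝ} (hu : 0 ≤ u) (hu1 : u ≤ 1) (hv : 0 ≤ v) (hv1 : v ≤ 1)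
    (h : Parc a u = Parc b v) : (a = b ∧ u = v) ∨
      (u = 1 ∧ v = 1 ∧ b = (if isUp a then a + 1 else a - 1)) ∨
      (u = 0 ∧ v = 0 ∧ b = arcAt (nodeC a) (!isUp a)) := by
  have htri : sec a = sec b ∨ sec b = (sec a + 1) % 3 ∨ sec a = (sec b + 1) % 3 := by
    rcases F4_sec a with h1 | h1 | h1 <;> rcases F4_sec b with h2 | h2 | h2 <;> rw [h1, h2] <;> simp
  rcases htri with hs | hs | hs
  · refine F4_eq_same hu hu1 hv hv1 hs ?_
    rcases F4_sec a with h1 | h1 | h1
    · rw [F4_S0 h1, F4_S0 (hs ▸ h1)] at h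
      exact F4_coe_inj h
    · rw [F4_S1 h1, F4_S1 (hs ▸ h1)] at h
      have h2 := F4_coe_inj (F4_SS_inj h)
      linarith
    · rw [F4_S2 h1, F4_S2 (hs ▸ h1)] at h
      exact F4_coe_inj (F4_SS_inj (F4_TT_inj h))
  · obtain ⟨h1, h2, h3, h4⟩ := F4_eq_next hu hu1 hv hv1 hs h
    exact Or.inr (Or.inl ⟨h2, h4, (F4_cross a b hs h1 h3).1⟩)
  · obtain ⟨h1, h2, h3, h4⟩ := F4_eq_next hv hv1 hu hu1 hs h.symm
    exact Or.inr (Or.inl ⟨h4, h2, (F4_cross b a hs h1 h3).2⟩)

end Pool.AML
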