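import Pool.Agent.AML.F.F5a

/-! [AML-F5b] Tiles: the coordinate `YL a u` of the arc `Parc a u` in its tile, second part: range and end points.

In the chart of its tile the arc is `xval a u`, an increasing function `X` of `p = pp a u ∈ [nu (ix a), nu (ix a + 1)]`
(`X = p`, `-1/p`, `p - 1`, `1 - 1/p` or `p/(1-p)`). One has to show `loT ≤ X ≤ hiT`, with equality only at a node `u = 0`.
Since midpoints lie strictly between consecutive levels it suffices to locate the levels of the tile:
* tiles `36 ≤ k ≤ 52`: `nx k = k + 1`, arcs `2k`, `2k+1` (sector 2, `X = 1 - 1/p`), and `X (lev j) = lev (j + 36)` (`lev_rho` twice), so `X` runs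
  from `lev k` to `lev (k+1)`;
* tile `53`: arcs `106` (sector 2, from `lev 53` to `0`), `107`, `0`, `1` (sector 0, `X = p` from `0` to `lev 1`, through `lev 0`);
* tiles `k < 36`, `k ≠ 34`: levels `k, k+1, …, nx k` (at most two intermediate ones) are positive reals `x`, the chart is `-1/x`, increasing, and
  `loT k = lev (sg k) = -1 / lev k`, `hiT k = -1 / lev (nx k)` (`lev_sg`, `nx (sg k) = sg (nx k)` by decide); the arcs are
  `2k, …, 2 (nx k) - 1`; in sector 1 (`x = 1/(1-p)`) `-1/x = p - 1`;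
* tile `34`: levels `34, 35`, then `∞`, then `36`; arcs `68, 69, 70` (sector 1, `X = p - 1 ∈ [lev 53, 0]`) and `71` (sector 2, `X = p/(1-p)`, `p ∈ [0, lev 0]`,
  from `0` to `lev 0 / (1 - lev 0) = -1 / lev 36 = lev 1`).
`YL_zero`: at `u = 0` the value of the chart is that of the level `nodeC a` (`Parc_zero`): `-1` iff `nodeC a = tileL a`, `1` iff `nodeC a = nx (tileL a)`. -/

set_option linter.style.longLine false

open Topology Set

namespace Pool.AML

/-- the affine chart as a function of `p = pp a u`. -/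
noncomputable def F5b_X (a : Fin 108) (p : ℝ) : ℝ :=
  if sec a = 0 then (if 36 ≤ (tileL a).1 then p else -1 / p)
  else if sec a = 1 then p - 1
  else (if 36 ≤ (tileL a).1 then 1 - 1 / p else p / (1 - p))

theorem F5b_xval (a : Fin 108) (u : ℝ) : xval a u = F5b_X a (pp a u) := rfl

/-- the chart value of a level. -/
noncomputable def F5b_L (a : Fin 108) (k : Fin 54) : ℝ :=
  if 36 ≤ (tileL a).1 then lev k else -1 / lev k

/-- index of the level over `lev i` in the sector of `a`. -/
def F5b_sh (a : Fin 108) (i : Fin 54) : Fin 54 :=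
  if sec a = 0 then i else if sec a = 1 then i + 18 else i + 18 + 18

/-- order of the levels in the chart. -/
def F5b_key (a : Fin 108) (k : Fin 54) : ℕ := if 36 ≤ (tileL a).1 then (k.1 + 18) % 54 else k.1

/-- the level of the arc. -/
def F5b_i0 (a : Fin 108) : Fin 54 := ⟨(ix a / 2) % 54, Nat.mod_lt _ (by norm_num)⟩

/-- the previous level. -/
def F5b_pr (a : Fin 108) : Fin 54 := ⟨(ix a / 2 - 1) % 54, Nat.mod_lt _ (by norm_num)⟩

/-- the next level. -/
def F5b_nxt (a : Fin 108) : Fin 54 := ⟨((ix a + 1) / 2) % 54, Nat.mod_lt _ (by norm_num)⟩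

theorem F5b_sec : ∀ a : Fin 108, sec a = 0 ∨ sec a = 1 ∨ sec a = 2 := by decide +kernel

theorem F5b_sec1 : ∀ a : Fin 108, sec a = 1 → ¬ 36 ≤ (tileL a).1 := by decide +kernel

theorem F5b_X_lev (a : Fin 108) {i : Fin 54} (hi : i.1 < 18) :
    F5b_X a (lev i) = F5b_L a (F5b_sh a i) := by
  have h0 : 0 < lev i := lev_pos (by omega)
  have h1 : lev i < 1 := lev_lt_one hi
  have r1 : lev (i + 18) = 1 / (1 - lev i) := lev_rho i
  have r2 : lev (i + 18 + 18) = 1 / (1 - lev (i + 18)) := lev_rho (i + 18)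
  have h2 : (1 - lev i) ≠ 0 := by linarith
  have h3 : lev i ≠ 0 := h0.ne'
  have r3 : lev (i + 18 + 18) = 1 - 1 / lev i := by
    rw [r2, r1]
    have e : 1 - 1 / (1 - lev i) = -lev i / (1 - lev i) := by
      field_simp
      ring
    rw [e]
    field_simp
    ring
  unfold F5b_X F5b_L F5b_sh
  rcases F5b_sec a with h | h | h
  · rw [if_pos h, if_pos h]
  · have n0 : ¬ sec a = 0 := by omega
    rw [if_neg n0, if_pos h, if_neg (F5b_sec1 a h), if_neg n0, if_pos h, r1]
    field_simp
    ring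
  · have n0 : ¬ sec a = 0 := by omega
    have n1 : ¬ sec a = 1 := by omega
    rw [if_neg n0, if_neg n1, if_neg n0, if_neg n1]
    by_cases ht : 36 ≤ (tileL a).1
    · rw [if_pos ht, if_pos ht, r3]
    · rw [if_neg ht, if_neg ht, r3]
      have e : 1 - 1 / lev i = -((1 - lev i) / lev i) := by
        field_simp
        ring
      rw [e]
      field_simp

theorem F5b_L_lt (a : Fin 108) {j k : Fin 54} (h : F5b_key a j < F5b_key a k) :
    F5b_L a j < F5b_L a k := by
  unfold F5b_key at h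
  unfold F5b_L
  by_cases ht : 36 ≤ (tileL a).1
  · rw [if_pos ht, if_pos ht] at h
    rw [if_pos ht, if_pos ht]
    have hj54 := j.2
    have hk54 := k.2
    by_cases hj : 36 ≤ j.1
    · by_cases hk : 36 ≤ k.1
      · exact lev_lt (Fin.lt_def.2 (by omega)) (Or.inr hj)
      · exact lt_trans (lev_neg hj) (lev_pos (by omega))
    · by_cases hk : 36 ≤ k.1
      · exfalso; omega
      · exact lev_lt (Fin.lt_def.2 (by omega)) (Or.inl (by omega))
  · rw [if_neg ht, if_neg ht] at h
    rw [if_neg ht, if_neg ht]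
    have key : ∀ x y : ℝ, 1 / y < 1 / x → -1 / x < -1 / y := by
      intro x y hxy
      have e1 : -1 / x = -(1 / x) := by ring
      have e2 : -1 / y = -(1 / y) := by ring
      rw [e1, e2]
      linarith
    apply key
    by_cases hj : 36 ≤ j.1
    · have hk : 36 ≤ k.1 := by omega
      exact one_div_lt_one_div_of_neg_of_lt (lev_neg hk) (lev_lt (Fin.lt_def.2 h) (Or.inr hj))
    · by_cases hk : 36 ≤ k.1
      · exact lt_trans (one_div_neg.2 (lev_neg hk)) (one_div_pos.2 (lev_pos (by omega)))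
      · exact one_div_lt_one_div_of_lt (lev_pos (by omega))
          (lev_lt (Fin.lt_def.2 h) (Or.inl (by omega)))

theorem F5b_L_le (a : Fin 108) {j k : Fin 54} (h : F5b_key a j ≤ F5b_key a k) :
    F5b_L a j ≤ F5b_L a k := by
  rcases lt_or_eq_of_le h with h1 | h1
  · exact (F5b_L_lt a h1).le
  · have e : j = k := by
      unfold F5b_key at h1
      apply Fin.ext
      have hj := j.2
      have hk := k.2
      by_cases ht : 36 ≤ (tileL a).1
      · rw [if_pos ht, if_pos ht] at h1
        omega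
      · rw [if_neg ht, if_neg ht] at h1
        exact h1
    rw [e]

theorem F5b_nx_sg : ∀ a : Fin 108, ¬ 36 ≤ (tileL a).1 → nx (sg (tileL a)) = sg (nx (tileL a)) ∧
    cr (nx (tileL a)) = true := by decide +kernel

theorem F5b_lo (a : Fin 108) : loT (tileL a) = F5b_L a (tileL a) := by
  unfold loT F5b_L
  by_cases ht : 36 ≤ (tileL a).1
  · rw [if_pos ht, if_pos ht]
  · rw [if_neg ht, if_neg ht, lev_sg _ (cr_tileL a)]

theorem F5b_hi (a : Fin 108) : hiT (tileL a) = F5b_L a (nx (tileL a)) := by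
  unfold hiT F5b_L
  by_cases ht : 36 ≤ (tileL a).1
  · rw [if_pos ht, if_pos ht]
  · rw [if_neg ht, if_neg ht, (F5b_nx_sg a ht).1, lev_sg _ (F5b_nx_sg a ht).2]

theorem F5b_mono (a : Fin 108) {p p' : ℝ} (h : p < p') (h0 : 0 ≤ p) (h1 : p' ≤ 1)
    (hz : p ≠ 0 ∨ ((sec a = 0 → 36 ≤ (tileL a).1) ∧ (sec a = 2 → ¬ 36 ≤ (tileL a).1)))
    (hw : p' ≠ 1 ∨ (sec a = 2 → 36 ≤ (tileL a).1)) : F5b_X a p < F5b_X a p' := by
  unfold F5b_X
  rcases F5b_sec a with hs | hs | hs
  · rw [if_pos hs, if_pos hs]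
    by_cases ht : 36 ≤ (tileL a).1
    · rw [if_pos ht, if_pos ht]; exact h
    · rw [if_neg ht, if_neg ht]
      have hp : 0 < p := by
        rcases hz with hz | hz
        · exact lt_of_le_of_ne h0 (Ne.symm hz)
        · exact absurd (hz.1 hs) ht
      have h2 := one_div_lt_one_div_of_lt hp h
      have e1 : -1 / p = -(1 / p) := by ring
      have e2 : -1 / p' = -(1 / p') := by ring
      rw [e1, e2]
      linarith
  · have n0 : ¬ sec a = 0 := by omega
    rw [if_neg n0, if_neg n0, if_pos hs, if_pos hs]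
    linarith
  · have n0 : ¬ sec a = 0 := by omega
    have n1 : ¬ sec a = 1 := by omega
    rw [if_neg n0, if_neg n0, if_neg n1, if_neg n1]
    by_cases ht : 36 ≤ (tileL a).1
    · rw [if_pos ht, if_pos ht]
      have hp : 0 < p := by
        rcases hz with hz | hz
        · exact lt_of_le_of_ne h0 (Ne.symm hz)
        · exact absurd ht (hz.2 hs)
      have h2 := one_div_lt_one_div_of_lt hp h
      linarith
    · rw [if_neg ht, if_neg ht]
      have hp : p' < 1 := by
        rcases hw with hw | hw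
        · exact lt_of_le_of_ne h1 hw
        · exact absurd (hw hs) ht
      rw [div_lt_div_iff₀ (by linarith) (by linarith)]
      nlinarith

theorem F5b_ix_lt (a : Fin 108) : ix a < 36 := Nat.mod_lt _ (by norm_num)

theorem F5b_nu_nonneg {i : ℕ} (hi : i ≤ 36) : 0 ≤ nu i := by
  rcases Nat.eq_zero_or_pos i with h | h
  · rw [h, nu_zero]
  · have := nu_lt h hi
    rw [nu_zero] at this
    exact this.le

theorem F5b_nu_le {i : ℕ} (hi : i ≤ 36) : nu i ≤ 1 := by
  rcases lt_or_eq_of_le hi with h | h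
  · have := nu_lt h le_rfl
    rw [nu_last] at this
    exact this.le
  · rw [h, nu_last]

theorem F5b_d0 : ∀ a : Fin 108, ix a = 0 →
    ((sec a = 0 → 36 ≤ (tileL a).1) ∧ (sec a = 2 → ¬ 36 ≤ (tileL a).1)) := by decide +kernel

theorem F5b_d35 : ∀ a : Fin 108, ix a = 35 → (sec a = 2 → 36 ≤ (tileL a).1) := by decide +kernel

/-- monotonicity on the arc. -/
theorem F5b_arc (a : Fin 108) {p p' : ℝ} (h : p < p') (h0 : nu (ix a) ≤ p)
    (h1 : p' ≤ nu (ix a + 1)) : F5b_X a p < F5b_X a p' := by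
  have hix := F5b_ix_lt a
  apply F5b_mono a h (le_trans (F5b_nu_nonneg (by omega)) h0) (le_trans h1 (F5b_nu_le (by omega)))
  · by_cases hp : p = 0
    · right
      apply F5b_d0
      by_contra hne
      have := nu_lt (Nat.pos_of_ne_zero hne) (by omega : ix a ≤ 36)
      rw [nu_zero] at this
      linarith
    · left; exact hp
  · by_cases hp : p' = 1
    · right
      apply F5b_d35
      by_contra hne
      have := nu_lt (show ix a + 1 < 36 by omega) le_rfl
      rw [nu_last] at this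
      linarith
    · left; exact hp

theorem F5b_nu_odd {i : ℕ} (h : i % 2 = 1) (hi : i < 36) :
    nu i = lev ⟨(i / 2) % 54, Nat.mod_lt _ (by norm_num)⟩ := by
  unfold nu
  rw [if_neg (by omega), if_neg (by omega), if_pos h]

theorem F5b_nu_even {i : ℕ} (h : i % 2 = 0) (h0 : i ≠ 0) (hi : i < 36) :
    nu i = (lev ⟨(i / 2 - 1) % 54, Nat.mod_lt _ (by norm_num)⟩ +
      lev ⟨(i / 2) % 54, Nat.mod_lt _ (by norm_num)⟩) / 2 := by
  unfold nu
  rw [if_neg h0, if_neg (by omega), if_neg (by omega)]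

theorem F5b_node_odd (a : Fin 108) (h : ix a % 2 = 1) : nu (ix a) = lev (F5b_i0 a) :=
  F5b_nu_odd h (F5b_ix_lt a)

theorem F5b_node_even (a : Fin 108) (h : ix a % 2 = 0) : nu (ix a + 1) = lev (F5b_i0 a) := by
  have hix := F5b_ix_lt a
  rw [F5b_nu_odd (i := ix a + 1) (by omega) (by omega)]
  congr 1
  apply Fin.ext
  show ((ix a + 1) / 2) % 54 = (ix a / 2) % 54
  omega

theorem F5b_pp0 (a : Fin 108) : pp a 0 = lev (F5b_i0 a) := by
  unfold pp
  by_cases h : ix a % 2 = 0
  · rw [if_pos h, zero_mul, add_zero, F5b_node_even a h]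
  · rw [if_neg h, zero_mul, add_zero, F5b_node_odd a (by omega)]

theorem F5b_D1 : ∀ a : Fin 108, F5b_sh a (F5b_i0 a) = nodeC a ∧ (F5b_i0 a).1 < 18 := by
  decide +kernel

theorem F5b_D2 : ∀ a : Fin 108, ix a % 2 = 1 → F5b_key a (tileL a) ≤ F5b_key a (nodeC a) := by
  decide +kernel

theorem F5b_D3 : ∀ a : Fin 108, ix a % 2 = 0 → F5b_key a (nodeC a) ≤ F5b_key a (nx (tileL a)) := by
  decide +kernel

theorem F5b_D4 : ∀ a : Fin 108, ix a % 2 = 0 → ix a ≠ 0 → (F5b_pr a).1 < 18 ∧
    F5b_pr a < F5b_i0 a ∧ F5b_key a (tileL a) ≤ F5b_key a (F5b_sh a (F5b_pr a)) := by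
  decide +kernel

theorem F5b_D5 : ∀ a : Fin 108, ix a % 2 = 1 → ix a ≠ 35 → (F5b_nxt a).1 < 18 ∧
    F5b_i0 a < F5b_nxt a ∧ F5b_key a (F5b_sh a (F5b_nxt a)) ≤ F5b_key a (nx (tileL a)) := by
  decide +kernel

theorem F5b_D6 : ∀ a : Fin 108, ix a = 0 → a = 107 ∨ a = 35 ∨ a = 71 := by decide +kernel

theorem F5b_D7 : ∀ a : Fin 108, ix a = 35 → a = 34 ∨ a = 70 ∨ a = 106 := by decide +kernel

theorem F5b_D8 : ∀ a : Fin 108, nodeC a = tileL a ∨ nodeC a = nx (tileL a) ∨
    (cr (nodeC a) = false ∧ F5b_key a (tileL a) < F5b_key a (nodeC a) ∧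
      F5b_key a (nodeC a) < F5b_key a (nx (tileL a))) := by decide +kernel

theorem F5b_X_node (a : Fin 108) : F5b_X a (lev (F5b_i0 a)) = F5b_L a (nodeC a) := by
  rw [F5b_X_lev a (F5b_D1 a).2, (F5b_D1 a).1]

theorem F5b_Lo_odd (a : Fin 108) (h : ix a % 2 = 1) : loT (tileL a) ≤ F5b_X a (nu (ix a)) := by
  rw [F5b_node_odd a h, F5b_X_node, F5b_lo]
  exact F5b_L_le a (F5b_D2 a h)

theorem F5b_Hi_even (a : Fin 108) (h : ix a % 2 = 0) :
    F5b_X a (nu (ix a + 1)) ≤ hiT (tileL a) := by
  rw [F5b_node_even a h, F5b_X_node, F5b_hi]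
  exact F5b_L_le a (F5b_D3 a h)

theorem F5b_Lo_even (a : Fin 108) (h : ix a % 2 = 0) : loT (tileL a) < F5b_X a (nu (ix a)) := by
  have hix := F5b_ix_lt a
  by_cases h0 : ix a = 0
  · rw [F5b_lo, h0, nu_zero]
    rcases F5b_D6 a h0 with rfl | rfl | rfl
    · have e1 : tileL 107 = 53 := by decide +kernel
      have e2 : sec 107 = 0 := by decide +kernel
      unfold F5b_L F5b_X
      rw [if_pos (by rw [e1]; decide), if_pos e2, if_pos (by rw [e1]; decide), e1]
      exact lev_neg (by decide)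
    · have e1 : tileL 35 = 17 := by decide +kernel
      have e2 : sec 35 = 1 := by decide +kernel
      unfold F5b_L F5b_X
      rw [if_neg (by rw [e1]; decide), if_neg (by rw [e2]; decide), if_pos e2, e1]
      have h1 : 0 < lev 17 := lev_pos (by decide)
      have h2 : lev 17 < 1 := lev_lt_one (by decide)
      rw [div_lt_iff₀ h1]
      linarith
    · have e1 : tileL 71 = 34 := by decide +kernel
      have e2 : sec 71 = 2 := by decide +kernel
      unfold F5b_L F5b_X
      rw [if_neg (by rw [e1]; decide), if_neg (by rw [e2]; decide), if_neg (by rw [e2]; decide),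
        if_neg (by rw [e1]; decide), e1]
      have h1 : 0 < lev 34 := lev_pos (by decide)
      rw [zero_div]
      exact div_neg_of_neg_of_pos (by norm_num) h1
  · obtain ⟨h1, h2, h3⟩ := F5b_D4 a h h0
    have e1 : nu (ix a) = (lev (F5b_pr a) + lev (F5b_i0 a)) / 2 := F5b_nu_even h h0 hix
    have h4 : lev (F5b_pr a) < lev (F5b_i0 a) := lev_lt h2 (Or.inl (by
      have := (F5b_D1 a).2
      omega))
    have h5 : lev (F5b_pr a) < nu (ix a) := by rw [e1]; linarith
    have h6 : 0 < lev (F5b_pr a) := lev_pos (by omega)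
    have h7 := nu_lt (show ix a < 36 from hix) le_rfl
    rw [nu_last] at h7
    have h8 := F5b_mono a h5 h6.le h7.le (Or.inl h6.ne') (Or.inl h7.ne)
    rw [F5b_X_lev a h1] at h8
    rw [F5b_lo]
    exact lt_of_le_of_lt (F5b_L_le a h3) h8

theorem F5b_Hi_odd (a : Fin 108) (h : ix a % 2 = 1) : F5b_X a (nu (ix a + 1)) < hiT (tileL a) := by
  have hix := F5b_ix_lt a
  by_cases h0 : ix a = 35
  · rw [F5b_hi, h0]
    rw [show (35 + 1 : ℕ) = 36 from rfl, nu_last]
    rcases F5b_D7 a h0 with rfl | rfl | rfl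
    · have e1 : tileL 34 = 17 := by decide +kernel
      have e2 : sec 34 = 0 := by decide +kernel
      have e3 : nx (tileL 34) = 18 := by decide +kernel
      unfold F5b_L F5b_X
      rw [if_pos e2, if_neg (by rw [e1]; decide), if_neg (by rw [e1]; decide), e3]
      have h1 : 1 < lev 18 := one_lt_lev (by decide) (by decide)
      rw [div_one, lt_div_iff₀ (by linarith)]
      linarith
    · have e1 : tileL 70 = 34 := by decide +kernel
      have e2 : sec 70 = 1 := by decide +kernel
      have e3 : nx (tileL 70) = 36 := by decide +kernel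
      unfold F5b_L F5b_X
      rw [if_neg (by rw [e2]; decide), if_pos e2, if_neg (by rw [e1]; decide), e3]
      have h1 : lev 36 < 0 := lev_neg (by decide)
      rw [sub_self]
      exact div_pos_of_neg_of_neg (by norm_num) h1
    · have e1 : tileL 106 = 53 := by decide +kernel
      have e2 : sec 106 = 2 := by decide +kernel
      have e3 : nx (tileL 106) = 1 := by decide +kernel
      unfold F5b_L F5b_X
      rw [if_neg (by rw [e2]; decide), if_neg (by rw [e2]; decide), if_pos (by rw [e1]; decide),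
        if_pos (by rw [e1]; decide), e3]
      have h1 : 0 < lev 1 := lev_pos (by decide)
      rw [div_one, sub_self]
      exact h1
  · obtain ⟨h1, h2, h3⟩ := F5b_D5 a h h0
    have e1 : nu (ix a + 1) = (lev (F5b_i0 a) + lev (F5b_nxt a)) / 2 := by
      rw [F5b_nu_even (i := ix a + 1) (by omega) (by omega) (by omega)]
      have e2 : (⟨((ix a + 1) / 2 - 1) % 54, Nat.mod_lt _ (by norm_num)⟩ : Fin 54) = F5b_i0 a := by
        apply Fin.ext
        show ((ix a + 1) / 2 - 1) % 54 = (ix a / 2) % 54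
        omega
      rw [e2]
      rfl
    have h4 : lev (F5b_i0 a) < lev (F5b_nxt a) := lev_lt h2 (Or.inl (by omega))
    have h5 : nu (ix a + 1) < lev (F5b_nxt a) := by rw [e1]; linarith
    have h6 : lev (F5b_nxt a) < 1 := lev_lt_one h1
    have h7 := nu_lt (show 0 < ix a + 1 by omega) (show ix a + 1 ≤ 36 by omega)
    rw [nu_zero] at h7
    have h8 := F5b_mono a h5 h7.le h6.le (Or.inl h7.ne') (Or.inl h6.ne)
    rw [F5b_X_lev a h1] at h8
    rw [F5b_hi]
    exact lt_of_lt_of_le h8 (F5b_L_le a h3)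

theorem F5b_main (a : Fin 108) {u : ℝ} (h0 : 0 ≤ u) (h1 : u ≤ 1) :
    loT (tileL a) ≤ xval a u ∧ xval a u ≤ hiT (tileL a) ∧
      (xval a u = loT (tileL a) ∨ xval a u = hiT (tileL a) → u = 0) := by
  obtain ⟨p1, p2⟩ := pp_mem a h0 h1
  have hix := F5b_ix_lt a
  have hnn := nu_lt (show ix a < ix a + 1 by omega) (show ix a + 1 ≤ 36 by omega)
  have hlow : F5b_X a (nu (ix a)) ≤ F5b_X a (pp a u) := by
    rcases lt_or_eq_of_le p1 with h | h
    · exact (F5b_arc a h le_rfl p2).le
    · rw [h]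
  have hup : F5b_X a (pp a u) ≤ F5b_X a (nu (ix a + 1)) := by
    rcases lt_or_eq_of_le p2 with h | h
    · exact (F5b_arc a h p1 le_rfl).le
    · rw [h]
  rw [F5b_xval]
  by_cases h : ix a % 2 = 0
  · have q1 := F5b_Lo_even a h
    have q2 := F5b_Hi_even a h
    refine ⟨by linarith, by linarith, ?_⟩
    rintro (h3 | h3)
    · exfalso; linarith
    · apply pp_inj a
      rw [F5b_pp0, ← F5b_node_even a h]
      by_contra hne
      have := F5b_arc a (lt_of_le_of_ne p2 hne) p1 le_rfl
      linarith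
  · have q1 := F5b_Lo_odd a (by omega)
    have q2 := F5b_Hi_odd a (by omega)
    refine ⟨by linarith, by linarith, ?_⟩
    rintro (h3 | h3)
    · apply pp_inj a
      rw [F5b_pp0, ← F5b_node_odd a (by omega)]
      by_contra hne
      have := F5b_arc a (lt_of_le_of_ne p1 (Ne.symm hne)) le_rfl p2
      linarith
    · exfalso; linarith

theorem F5b_lt (a : Fin 108) : loT (tileL a) < hiT (tileL a) := loT_lt_hiT _ (cr_tileL a)

theorem YL_mem (a : Fin 108) {u : ℝ} (h0 : 0 ≤ u) (h1 : u ≤ 1) : -1 ≤ YL a u ∧ YL a u ≤ 1 := by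
  obtain ⟨q1, q2, _⟩ := F5b_main a h0 h1
  have hlt := F5b_lt a
  have hd : 0 < hiT (tileL a) - loT (tileL a) := by linarith
  unfold YL
  constructor
  · rw [le_div_iff₀ hd]; linarith
  · rw [div_le_iff₀ hd]; linarith

/-- the end points of the tile are attained only at `u = 0`. -/
theorem YL_end (a : Fin 108) {u : ℝ} (h0 : 0 ≤ u) (h1 : u ≤ 1) (h : |YL a u| = 1) : u = 0 := by
  obtain ⟨q1, q2, q3⟩ := F5b_main a h0 h1
  have hlt := F5b_lt a
  have hd : 0 < hiT (tileL a) - loT (tileL a) := by linarith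
  apply q3
  unfold YL at h
  rcases eq_or_eq_neg_of_abs_eq h with h2 | h2
  · right
    rw [div_eq_iff hd.ne'] at h2
    linarith
  · left
    rw [div_eq_iff hd.ne'] at h2
    linarith

theorem YL_zero (a : Fin 108) : (nodeC a = tileL a ∧ YL a 0 = -1) ∨ (nodeC a = nx (tileL a) ∧ YL a 0 = 1) ∨
    (cr (nodeC a) = false ∧ |YL a 0| < 1) := by
  have hlt := F5b_lt a
  have hd : 0 < hiT (tileL a) - loT (tileL a) := by linarith
  have hx : xval a 0 = F5b_L a (nodeC a) := by rw [F5b_xval, F5b_pp0, F5b_X_node]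
  have hY : YL a 0 = (2 * F5b_L a (nodeC a) - loT (tileL a) - hiT (tileL a)) /
      (hiT (tileL a) - loT (tileL a)) := by
    unfold YL
    rw [hx]
  rcases F5b_D8 a with h | h | ⟨h, h2, h3⟩
  · left
    refine ⟨h, ?_⟩
    rw [hY, h, ← F5b_lo, div_eq_iff hd.ne']
    ring
  · right; left
    refine ⟨h, ?_⟩
    rw [hY, h, ← F5b_hi, div_eq_iff hd.ne']
    ring
  · right; right
    refine ⟨h, ?_⟩
    have h4 := F5b_L_lt a h2
    have h5 := F5b_L_lt a h3
    rw [← F5b_lo] at h4
    rw [← F5b_hi] at h5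
    rw [hY, abs_lt]
    constructor
    · rw [lt_div_iff₀ hd]; linarith
    · rw [div_lt_iff₀ hd]; linarith

end Pool.AML
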