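import Pool.Agent.AML.F.F3

/-! [AML-F5a] Tiles: the coordinate `YL a u` of the arc `Parc a u` in its tile, first part.

`loT_lt_hiT`: for crossing `k` : if `36 ≤ k ≤ 52` then `nx k = k + 1` (decide) and `lev_lt`; `k = 53`: `nx 53 = 1`,
`lev 53 < 0 < lev 1`; for `k < 36` the same for `sg k ≥ 36` (decide; crossing `k < 36` has `36 ≤ sg k`).
`chi_YL`: unfold; the affine chart: `(1 - y)/2 * lo + (1 + y)/2 * hi = xval` for `y = (2 xval - lo - hi)/(hi - lo)`; then
compare `xval a u` (or `SS (xval a u)`) with `Parc a u` in each sector (`SS_SS`, `SS_coe`, `TT_coe`); note `pp a u > 0`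
unless `ix a = 0`, `u = 1` (`pp_mem`, `nu_lt`); `pp a u < 1` unless `ix a = 35`, `u = 1`. In sector 0 the tile is `≥ 36` (it is `53`) only for
`a = 107, 0, 1` and for the other `a` of the sector `ix a ≥ 1` hence `pp a u > 0`; in sector 2 the tile is `< 36` only for `a = 71`
(`ix = 0`, `pp a u ≤ lev 0 < 1`; at `pp a u = 0` both sides are `∞ = SS 0`), otherwise `ix a ≥ 1`; sector 1 tiles are all `< 36` (decide).
`continuousOn_YL`: `xval a` is continuous on `[0,1]` because the denominators `pp a u`, `1 - pp a u` which occur do not vanish. -/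

set_option linter.style.longLine false

open Topology Set

namespace Pool.AML

theorem F5a_nx : ∀ k : Fin 54, 36 ≤ k.1 → (nx k = 1 ∧ 36 ≤ k.1) ∨ (k < nx k ∧ 36 ≤ k.1) := by decide +kernel

theorem F5a_lt {k : Fin 54} (h : 36 ≤ k.1) : lev k < lev (nx k) := by
  rcases F5a_nx k h with ⟨h1, -⟩ | ⟨h1, -⟩
  · rw [h1]
    have h2 := lev_neg h
    have h3 : 0 < lev 1 := lev_pos (by decide)
    linarith
  · exact lev_lt h1 (Or.inr h)

theorem F5a_sg : ∀ k : Fin 54, cr k = true → k.1 < 36 → 36 ≤ (sg k).1 := by decide +kernel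

theorem loT_lt_hiT (k : Fin 54) (hk : cr k = true) : loT k < hiT k := by
  unfold loT hiT
  by_cases h : 36 ≤ k.1
  · rw [if_pos h, if_pos h]
    exact F5a_lt h
  · rw [if_neg h, if_neg h]
    exact F5a_lt (F5a_sg k hk (by omega))

theorem cr_tileL (a : Fin 108) : cr (tileL a) = true := by revert a; decide +kernel

theorem F5a_sec (a : Fin 108) : sec a = 0 ∨ sec a = 1 ∨ sec a = 2 := by revert a; decide +kernel

theorem F5a_ix (a : Fin 108) : ix a < 36 := by revert a; decide +kernel

theorem F5a_t0 : ∀ a : Fin 108, sec a = 0 → (tileL a).1 < 36 → 1 ≤ ix a := by decide +kernel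

theorem F5a_t1 : ∀ a : Fin 108, sec a = 1 → (tileL a).1 < 36 := by decide +kernel

theorem F5a_t2 : ∀ a : Fin 108, sec a = 2 → 36 ≤ (tileL a).1 → 1 ≤ ix a := by decide +kernel

theorem F5a_t3 : ∀ a : Fin 108, sec a = 2 → (tileL a).1 < 36 → ix a = 0 := by decide +kernel

theorem F5a_pos {a : Fin 108} (h : 1 ≤ ix a) {u : ℝ} (h0 : 0 ≤ u) (h1 : u ≤ 1) : 0 < pp a u := by
  have h2 := (pp_mem a h0 h1).1
  have h3 : nu 0 < nu (ix a) := nu_lt h (F5a_ix a).le
  rw [nu_zero] at h3
  linarith

theorem F5a_one {a : Fin 108} (h : ix a = 0) {u : ℝ} (h0 : 0 ≤ u) (h1 : u ≤ 1) : pp a u < 1 := by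
  have h2 := (pp_mem a h0 h1).2
  rw [h] at h2
  have h3 : nu (0 + 1) < nu 36 := nu_lt (by norm_num) le_rfl
  rw [nu_last] at h3
  linarith

theorem F5a_chart {lo hi x : ℝ} (h : lo < hi) :
    (1 - (2 * x - lo - hi) / (hi - lo)) / 2 * lo + (1 + (2 * x - lo - hi) / (hi - lo)) / 2 * hi = x := by
  have h1 : hi - lo ≠ 0 := by linarith
  field_simp
  ring

theorem F5a_xval (a : Fin 108) {u : ℝ} (h0 : 0 ≤ u) (h1 : u ≤ 1) :
    (if 36 ≤ (tileL a).1 then ((xval a u : ℝ) : OnePoint ℝ) else SS ((xval a u : ℝ) : OnePoint ℝ)) =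
      Parc a u := by
  unfold Parc xval
  rcases F5a_sec a with hs | hs | hs
  · rw [if_pos hs, if_pos hs]
    by_cases h : 36 ≤ (tileL a).1
    · rw [if_pos h, if_pos h]
    · rw [if_neg h, if_neg h]
      have h2 : 0 < pp a u := F5a_pos (F5a_t0 a hs (by omega)) h0 h1
      have h3 : -1 / pp a u ≠ 0 := by
        rw [neg_div]
        exact neg_ne_zero.2 (by positivity)
      rw [SS_coe h3]
      congr 1
      field_simp
  · have h : ¬ 36 ≤ (tileL a).1 := by have := F5a_t1 a hs; omega
    have hs0 : ¬ sec a = 0 := by omega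
    simp only [if_neg hs0, if_pos hs, if_neg h]
  · have hs0 : ¬ sec a = 0 := by omega
    have hs1 : ¬ sec a = 1 := by omega
    simp only [if_neg hs0, if_neg hs1]
    by_cases h : 36 ≤ (tileL a).1
    · rw [if_pos h, if_pos h]
      have h2 : 0 < pp a u := F5a_pos (F5a_t2 a hs h) h0 h1
      rw [SS_coe h2.ne', TT_coe]
      congr 1
      field_simp
      ring
    · rw [if_neg h, if_neg h]
      have h2 : pp a u < 1 := F5a_one (F5a_t3 a hs (by omega)) h0 h1
      have h3 : 1 - pp a u ≠ 0 := by linarith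
      by_cases h4 : pp a u = 0
      · rw [h4, zero_div, SS_zero, TT_infty]
      · have h5 : pp a u / (1 - pp a u) ≠ 0 := div_ne_zero h4 h3
        rw [SS_coe h5, SS_coe h4, TT_coe]
        congr 1
        field_simp
        ring

theorem chi_YL (a : Fin 108) {u : ℝ} (h0 : 0 ≤ u) (h1 : u ≤ 1) : chi (tileL a) (YL a u) = Parc a u := by
  rw [← F5a_xval a h0 h1]
  unfold chi YL
  rw [F5a_chart (loT_lt_hiT _ (cr_tileL a))]

theorem continuousOn_YL (a : Fin 108) : ContinuousOn (YL a) (Icc 0 1) := by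
  have hpp : ContinuousOn (pp a) (Icc 0 1) := (continuous_pp a).continuousOn
  have hx : ContinuousOn (xval a) (Icc 0 1) := by
    unfold xval
    rcases F5a_sec a with hs | hs | hs
    · simp only [if_pos hs]
      by_cases h : 36 ≤ (tileL a).1
      · simp only [if_pos h]
        exact hpp
      · simp only [if_neg h]
        exact continuousOn_const.div hpp (fun u hu => (F5a_pos (F5a_t0 a hs (by omega)) hu.1 hu.2).ne')
    · have hs0 : ¬ sec a = 0 := by omega
      simp only [if_neg hs0, if_pos hs]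
      exact hpp.sub continuousOn_const
    · have hs0 : ¬ sec a = 0 := by omega
      have hs1 : ¬ sec a = 1 := by omega
      simp only [if_neg hs0, if_neg hs1]
      by_cases h : 36 ≤ (tileL a).1
      · simp only [if_pos h]
        exact continuousOn_const.sub (continuousOn_const.div hpp
          (fun u hu => (F5a_pos (F5a_t2 a hs h) hu.1 hu.2).ne'))
      · simp only [if_neg h]
        exact hpp.div (continuousOn_const.sub hpp) (fun u hu => by
          have := F5a_one (F5a_t3 a hs (by omega)) hu.1 hu.2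
          linarith)
  unfold YL
  exact (((continuousOn_const.mul hx).sub continuousOn_const).sub continuousOn_const).div_const _

end Pool.AML
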