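import Pool.Agent.AML.F.F4
import Pool.Agent.AML.F.F5

/-! [AML-F6] Tiles cover the circle and overlap only at crossing levels.

`chi_inj`: affine (F5 `loT_lt_hiT`) composed with the injective `SS`. `SS_chi`: `sg (sg k) = k` for crossing `k` and
`36 ≤ sg k ↔ k < 36` (decide), `SS_SS`. `chi_neg_one`, `chi_one`: `lev_sg`, `SS_coe`, and `nx (sg k) = sg (nx k)` (decide).
`tile_cover` : let `f = chi k y` with `|y| < 1` and `Parc a u = f` (`Parc_surj`), `k' = tileL a`, `y' = YL a u`, so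
`chi k y = chi k' y'`. Show `k = k'`: compare the charts. For `k, k' ≥ 36` the real intervals
`(loT k, hiT k) = (lev k, lev (nx k))` and `[lev k', lev (nx k')]` meet only if `k = k'` (they are the intervals between consecutive
numbers `lev 36 < lev 37 < ... < lev 53 < lev 1`). For `k, k' < 36` apply `SS`. Mixed case: `k ≥ 36 > k'`: the points of the tiles
`≥ 36` are in `[lev 36, lev 1]`, the points of the tiles `< 36` are in `SS [lev 36, lev 1] = [lev 1, ∞] ∪ [∞, lev 36]`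
(`-1/lev 36 = lev 1`): only the end points are common. -/

set_option linter.style.longLine false

open Topology Set

namespace Pool.AML

theorem F6_sgsg : ∀ k : Fin 54, cr k = true → sg (sg k) = k ∧ cr (sg k) = true ∧ cr (nx (sg k)) = true ∧
    sg (nx (sg k)) = nx k ∧ (36 ≤ k.1 → (sg k).1 < 36) ∧ (k.1 < 36 → 36 ≤ (sg k).1) := by decide +kernel

theorem F6_nx : ∀ k : Fin 54, 36 ≤ k.1 → cr k = true ∧ (nx k = 1 ∨ 36 ≤ (nx k).1) := by decide +kernel

theorem F6_lt : ∀ k k' : Fin 54, 36 ≤ k.1 → k < k' → (nx k = k' ∨ nx k < k') ∧ 36 ≤ (nx k).1 := by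
  decide +kernel

theorem F6_tile : ∀ k : Fin 54, cr k = true → tileL (arcAt k true) = k ∧ nodeC (arcAt k true) = k ∧
    tileL (arcAt (nx k) false) = k ∧ nodeC (arcAt (nx k) false) = nx k := by decide +kernel

theorem F6_SS_inj {f g : OnePoint ℝ} (h : SS f = SS g) : f = g := by
  rw [← SS_SS f, h, SS_SS]

theorem continuous_chi (k : Fin 54) : Continuous (chi k) := by
  have h1 : Continuous (fun y : ℝ => (((1 - y) / 2 * loT k + (1 + y) / 2 * hiT k : ℝ) : OnePoint ℝ)) :=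
    OnePoint.continuous_coe.comp (by fun_prop)
  unfold chi
  by_cases h : 36 ≤ k.1
  · simp only [if_pos h]
    exact h1
  · simp only [if_neg h]
    exact continuous_SS.comp h1

theorem F6_aff {lo hi y y' : ℝ} (h : lo < hi)
    (he : (1 - y) / 2 * lo + (1 + y) / 2 * hi = (1 - y') / 2 * lo + (1 + y') / 2 * hi) : y = y' := by
  have h1 : (y - y') * (hi - lo) = 0 := by linarith
  rcases mul_eq_zero.1 h1 with h2 | h2 <;> linarith

theorem chi_inj (k : Fin 54) (hk : cr k = true) {y y' : ℝ} (h : chi k y = chi k y') : y = y' := by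
  have hlt := loT_lt_hiT k hk
  unfold chi at h
  by_cases h1 : 36 ≤ k.1
  · rw [if_pos h1, if_pos h1] at h
    exact F6_aff hlt (OnePoint.coe_injective h)
  · rw [if_neg h1, if_neg h1] at h
    exact F6_aff hlt (OnePoint.coe_injective (F6_SS_inj h))

theorem F6_pos {k : Fin 54} (h : 36 ≤ k.1) (y : ℝ) :
    chi k y = (((1 - y) / 2 * lev k + (1 + y) / 2 * lev (nx k) : ℝ) : OnePoint ℝ) := by
  unfold chi loT hiT
  rw [if_pos h, if_pos h, if_pos h]

theorem F6_neg {k : Fin 54} (h : k.1 < 36) (y : ℝ) :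
    chi k y = SS (((1 - y) / 2 * lev (sg k) + (1 + y) / 2 * lev (nx (sg k)) : ℝ) : OnePoint ℝ) := by
  have h' : ¬ 36 ≤ k.1 := by omega
  unfold chi loT hiT
  rw [if_neg h', if_neg h', if_neg h']

theorem SS_chi (k : Fin 54) (hk : cr k = true) (y : ℝ) : SS (chi k y) = chi (sg k) y := by
  obtain ⟨h1, h2, h3, h4, h5, h6⟩ := F6_sgsg k hk
  by_cases h : 36 ≤ k.1
  · rw [F6_pos h, F6_neg (h5 h), h1]
  · rw [F6_neg (by omega), F6_pos (h6 (by omega)), SS_SS]

theorem F6_SS_lev {k : Fin 54} (hk : cr k = true) :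
    SS ((lev k : ℝ) : OnePoint ℝ) = ((lev (sg k) : ℝ) : OnePoint ℝ) := by
  rw [SS_coe (lev_ne_zero k), lev_sg k hk]

theorem chi_neg_one (k : Fin 54) (hk : cr k = true) : chi k (-1) = ((lev k : ℝ) : OnePoint ℝ) := by
  obtain ⟨h1, h2, h3, h4, h5, h6⟩ := F6_sgsg k hk
  by_cases h : 36 ≤ k.1
  · rw [F6_pos h]
    congr 1
    ring
  · rw [F6_neg (by omega)]
    have e : (1 - (-1 : ℝ)) / 2 * lev (sg k) + (1 + (-1 : ℝ)) / 2 * lev (nx (sg k)) = lev (sg k) := by ring
    rw [e, F6_SS_lev h2, h1]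

theorem chi_one (k : Fin 54) (hk : cr k = true) : chi k 1 = ((lev (nx k) : ℝ) : OnePoint ℝ) := by
  obtain ⟨h1, h2, h3, h4, h5, h6⟩ := F6_sgsg k hk
  by_cases h : 36 ≤ k.1
  · rw [F6_pos h]
    congr 1
    ring
  · rw [F6_neg (by omega)]
    have e : (1 - (1 : ℝ)) / 2 * lev (sg k) + (1 + (1 : ℝ)) / 2 * lev (nx (sg k)) = lev (nx (sg k)) := by ring
    rw [e, F6_SS_lev h3, h4]

/-- bounds of the affine chart. -/
theorem F6_bound {lo hi y : ℝ} (h : lo < hi) (hy : |y| ≤ 1) :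
    lo ≤ (1 - y) / 2 * lo + (1 + y) / 2 * hi ∧ (1 - y) / 2 * lo + (1 + y) / 2 * hi ≤ hi := by
  rw [abs_le] at hy
  constructor
  · nlinarith [mul_nonneg (by linarith : (0 : ℝ) ≤ 1 + y) (by linarith : (0 : ℝ) ≤ hi - lo)]
  · nlinarith [mul_nonneg (by linarith : (0 : ℝ) ≤ 1 - y) (by linarith : (0 : ℝ) ≤ hi - lo)]

theorem F6_hi {lo hi y : ℝ} (h : lo < hi) (he : hi ≤ (1 - y) / 2 * lo + (1 + y) / 2 * hi) (hy : |y| ≤ 1) :
    |y| = 1 := by
  rw [abs_le] at hy
  have h1 : (1 - y) * (hi - lo) ≤ 0 := by linarith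
  have h2 : 1 - y ≤ 0 := by
    by_contra hc
    push Not at hc
    nlinarith [mul_pos hc (by linarith : (0 : ℝ) < hi - lo)]
  have h3 : y = 1 := by linarith
  rw [h3, abs_one]

theorem F6_lo {lo hi y : ℝ} (h : lo < hi) (he : (1 - y) / 2 * lo + (1 + y) / 2 * hi ≤ lo) (hy : |y| ≤ 1) :
    |y| = 1 := by
  rw [abs_le] at hy
  have h1 : (1 + y) * (hi - lo) ≤ 0 := by linarith
  have h2 : 1 + y ≤ 0 := by
    by_contra hc
    push Not at hc
    nlinarith [mul_pos hc (by linarith : (0 : ℝ) < hi - lo)]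
  have h3 : y = -1 := by linarith
  rw [h3, abs_neg, abs_one]

theorem F6_lt36 {k : Fin 54} (h : 36 ≤ k.1) : lev k < lev (nx k) := by
  have h1 := loT_lt_hiT k (F6_nx k h).1
  unfold loT hiT at h1
  rw [if_pos h, if_pos h] at h1
  exact h1

theorem F6_lt_aux {k k' : Fin 54} (hk : 36 ≤ k.1) (hlt : k < k') {y y' : ℝ} (hy : |y| ≤ 1) (hy' : |y'| ≤ 1)
    (h : chi k y = chi k' y') : |y| = 1 ∧ |y'| = 1 := by
  have hk' : 36 ≤ k'.1 := le_trans hk (le_of_lt hlt)
  rw [F6_pos hk, F6_pos hk'] at h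
  have h1 := OnePoint.coe_injective h
  have hl := F6_lt36 hk
  have hl' := F6_lt36 hk'
  have hb := F6_bound hl hy
  have hb' := F6_bound hl' hy'
  have h2 : lev (nx k) ≤ lev k' := by
    obtain ⟨h3, h4⟩ := F6_lt k k' hk hlt
    rcases h3 with h3 | h3
    · rw [h3]
    · exact (lev_lt h3 (Or.inr h4)).le
  exact ⟨F6_hi hl (by linarith) hy, F6_lo hl' (by linarith) hy'⟩

theorem F6_pp {k k' : Fin 54} (hk : 36 ≤ k.1) (hk' : 36 ≤ k'.1) {y y' : ℝ} (hy : |y| ≤ 1) (hy' : |y'| ≤ 1)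
    (h : chi k y = chi k' y') : (k = k' ∧ y = y') ∨ (|y| = 1 ∧ |y'| = 1) := by
  rcases lt_trichotomy k k' with h1 | h1 | h1
  · exact Or.inr (F6_lt_aux hk h1 hy hy' h)
  · subst h1
    exact Or.inl ⟨rfl, chi_inj k (F6_nx k hk).1 h⟩
  · have := F6_lt_aux hk' h1 hy' hy h.symm
    exact Or.inr ⟨this.2, this.1⟩

theorem F6_range {k : Fin 54} (hk : 36 ≤ k.1) : lev 36 ≤ lev k ∧ lev (nx k) ≤ lev 1 := by
  constructor
  · rcases Nat.lt_or_ge 36 k.1 with h | h
    · exact (lev_lt (j := 36) (k := k) h (Or.inr (by decide))).le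
    · have : k = 36 := Fin.ext (by
        have : k.1 = 36 := by omega
        rw [this]; rfl)
      rw [this]
  · rcases (F6_nx k hk).2 with h | h
    · rw [h]
    · have h1 := lev_neg h
      have h2 : 0 < lev 1 := lev_pos (by decide)
      linarith

theorem F6_mul : lev 36 * lev 1 = -1 := by
  have h1 : sg 1 = 36 := by decide
  have h2 := lev_sg 1 (by decide)
  rw [h1] at h2
  have h3 : 0 < lev 1 := lev_pos (by decide)
  rw [h2]
  field_simp

theorem F6_mixed {k k' : Fin 54} (hk : 36 ≤ k.1) (hk' : k'.1 < 36) (hc : cr k' = true) {y y' : ℝ}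
    (hy : |y| ≤ 1) (hy' : |y'| ≤ 1) (h : chi k y = chi k' y') : |y| = 1 ∧ |y'| = 1 := by
  have hs : 36 ≤ (sg k').1 := (F6_sgsg k' hc).2.2.2.2.2 hk'
  rw [F6_pos hk, F6_neg hk'] at h
  have hl := F6_lt36 hk
  have hl' := F6_lt36 hs
  have hb := F6_bound hl hy
  have hb' := F6_bound hl' hy'
  have hr := F6_range hk
  have hr' := F6_range hs
  have e36 : lev 36 < 0 := lev_neg (by decide)
  have e1 : 0 < lev 1 := lev_pos (by decide)
  have em := F6_mul
  set x := (1 - y) / 2 * lev k + (1 + y) / 2 * lev (nx k) with hx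
  set x' := (1 - y') / 2 * lev (sg k') + (1 + y') / 2 * lev (nx (sg k')) with hx'
  by_cases h0 : x' = 0
  · rw [h0, SS_zero] at h
    exact absurd h (OnePoint.coe_ne_infty _)
  · rw [SS_coe h0] at h
    have h1 : x = -1 / x' := OnePoint.coe_injective h
    have h2 : x * x' = -1 := by rw [h1]; field_simp
    rcases lt_or_gt_of_ne h0 with h3 | h3
    · -- x' < 0: x = lev 1, x' = lev 36
      have h4 : lev 36 ≤ x' := by linarith [hb'.1, hr'.1]
      have h5 : x ≤ lev 1 := by linarith [hb.2, hr.2]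
      have h6 : 0 < x := by
        by_contra hc
        push Not at hc
        nlinarith [mul_nonneg_of_nonpos_of_nonpos hc h3.le]
      -- x * x' >= lev 1 * x' >= lev 1 * lev 36 = -1
      have h7 : (lev 1 - x) * (-x') = 0 := by
        nlinarith [mul_nonneg (by linarith : (0 : ℝ) ≤ lev 1 - x) (by linarith : (0 : ℝ) ≤ -x'),
          mul_nonneg e1.le (by linarith : (0 : ℝ) ≤ x' - lev 36)]
      have h8 : lev 1 - x = 0 := by
        rcases mul_eq_zero.1 h7 with h8 | h8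
        · exact h8
        · exact absurd (by linarith : x' = 0) h0
      have h9 : x' = lev 36 := by
        have h10 : lev 1 * (x' - lev 36) = 0 := by
          have : x = lev 1 := by linarith
          rw [this] at h2
          linarith
        rcases mul_eq_zero.1 h10 with h11 | h11
        · exact absurd h11 e1.ne'
        · linarith
      exact ⟨F6_hi hl (by rw [← hx]; linarith [hr.2]) hy, F6_lo hl' (by rw [← hx']; linarith [hr'.1]) hy'⟩
    · -- x' > 0: x = lev 36, x' = lev 1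
      have h4 : x' ≤ lev 1 := by linarith [hb'.2, hr'.2]
      have h5 : lev 36 ≤ x := by linarith [hb.1, hr.1]
      have h7 : (x - lev 36) * x' = 0 := by
        nlinarith [mul_nonneg (by linarith : (0 : ℝ) ≤ x - lev 36) h3.le,
          mul_nonneg (by linarith : (0 : ℝ) ≤ -lev 36) (by linarith : (0 : ℝ) ≤ lev 1 - x')]
      have h8 : x - lev 36 = 0 := by
        rcases mul_eq_zero.1 h7 with h8 | h8
        · exact h8
        · exact absurd h8 h0
      have h9 : x' = lev 1 := by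
        have h10 : lev 36 * (x' - lev 1) = 0 := by
          have : x = lev 36 := by linarith
          rw [this] at h2
          linarith
        rcases mul_eq_zero.1 h10 with h11 | h11
        · exact absurd h11 e36.ne
        · linarith
      exact ⟨F6_lo hl (by rw [← hx]; linarith [hr.1]) hy, F6_hi hl' (by rw [← hx']; linarith [hr'.2]) hy'⟩

/-- two tiles overlap only at crossing levels. -/
theorem chi_eq {k k' : Fin 54} (hk : cr k = true) (hk' : cr k' = true) {y y' : ℝ} (hy : |y| ≤ 1) (hy' : |y'| ≤ 1)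
    (h : chi k y = chi k' y') : (k = k' ∧ y = y') ∨ (|y| = 1 ∧ |y'| = 1) := by
  by_cases h1 : 36 ≤ k.1
  · by_cases h2 : 36 ≤ k'.1
    · exact F6_pp h1 h2 hy hy' h
    · exact Or.inr (F6_mixed h1 (by omega) hk' hy hy' h)
  · by_cases h2 : 36 ≤ k'.1
    · have := F6_mixed h2 (by omega) hk hy' hy h.symm
      exact Or.inr ⟨this.2, this.1⟩
    · have h3 : chi (sg k) y = chi (sg k') y' := by rw [← SS_chi k hk, ← SS_chi k' hk', h]
      have h4 := F6_sgsg k hk
      have h5 := F6_sgsg k' hk'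
      rcases F6_pp (h4.2.2.2.2.2 (by omega)) (h5.2.2.2.2.2 (by omega)) hy hy' h3 with ⟨h6, h7⟩ | h6
      · left
        refine ⟨?_, h7⟩
        rw [← h4.1, h6, h5.1]
      · exact Or.inr h6

/-- interior points of a tile are not crossing levels. -/
theorem chi_interior {k j : Fin 54} (hk : cr k = true) (hj : cr j = true) {y : ℝ} (hy : |y| < 1) :
    chi k y ≠ ((lev j : ℝ) : OnePoint ℝ) := by
  intro h
  rw [← chi_neg_one j hj] at h
  rcases chi_eq hk hj hy.le (by norm_num) h with ⟨-, h1⟩ | ⟨h1, -⟩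
  · rw [h1] at hy
    norm_num at hy
  · linarith

/-- every point of the circle lies in a tile. -/
theorem chi_surj (f : OnePoint ℝ) : ∃ k : Fin 54, cr k = true ∧ ∃ y : ℝ, |y| ≤ 1 ∧ chi k y = f := by
  obtain ⟨a, u, h0, h1, rfl⟩ := Parc_surj f
  exact ⟨tileL a, cr_tileL a, YL a u, abs_le.2 (YL_mem a h0 h1), chi_YL a h0 h1⟩

/-- every point of a tile lies on an arc of this tile. -/
theorem tile_cover (k : Fin 54) (hk : cr k = true) {y : ℝ} (hy : |y| ≤ 1) :
    ∃ a : Fin 108, tileL a = k ∧ ∃ u : ℝ, 0 ≤ u ∧ u ≤ 1 ∧ YL a u = y := by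
  obtain ⟨t1, t2, t3, t4⟩ := F6_tile k hk
  rcases lt_or_eq_of_le hy with h | h
  · obtain ⟨a, u, h0, h1, hu⟩ := Parc_surj (chi k y)
    rw [← chi_YL a h0 h1] at hu
    rcases chi_eq (cr_tileL a) hk (abs_le.2 (YL_mem a h0 h1)) hy hu with ⟨h2, h3⟩ | ⟨-, h3⟩
    · exact ⟨a, h2, u, h0, h1, h3⟩
    · exact absurd h3 h.ne
  · rcases (abs_eq (by norm_num)).1 h with h1 | h1
    · refine ⟨arcAt (nx k) false, t3, 0, le_rfl, zero_le_one, ?_⟩
      have h2 := chi_YL (arcAt (nx k) false) (u := 0) le_rfl zero_le_one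
      rw [t3, Parc_zero, t4, ← chi_one k hk] at h2
      rw [h1]
      exact chi_inj k hk h2
    · refine ⟨arcAt k true, t1, 0, le_rfl, zero_le_one, ?_⟩
      have h2 := chi_YL (arcAt k true) (u := 0) le_rfl zero_le_one
      rw [t1, Parc_zero, t2, ← chi_neg_one k hk] at h2
      rw [h1]
      exact chi_inj k hk h2

/-- arcs of the same tile overlap only at nodes. -/
theorem YL_eq {a b : Fin 108} (hab : tileL a = tileL b) {u v : ℝ} (hu : 0 ≤ u) (hu1 : u ≤ 1) (hv : 0 ≤ v) (hv1 : v ≤ 1)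
    (h : YL a u = YL b v) : (a = b ∧ u = v) ∨ (u = 1 ∧ v = 1 ∧ b = (if isUp a then a + 1 else a - 1)) ∨
      (u = 0 ∧ v = 0 ∧ b = arcAt (nodeC a) (!isUp a)) := by
  refine Parc_eq hu hu1 hv hv1 ?_
  rw [← chi_YL a hu hu1, ← chi_YL b hv hv1, hab, h]

end Pool.AML
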