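import Pool.Agent.AML.F.F6
import Pool.Agent.AML.M.Defs

/-! [AML-F7] Flags and points of the circle.

Left: `chi_YL`. Right: `tile (false, a) = sg (tileL (a + 36))`, `Yc (false, a) u = YL (a + 36) u`, so by `SS_chi` and
`chi_YL` `chi (tile (false, a)) (Yc (false, a) u) = SS (Parc (a + 36) u)`, and `TT (SS (Parc (a + 36) u)) = Parc a u`
(`Parc_rho`). Combinatorial facts by `decide` (or `decide +kernel`) on `Fin 108`, `Fin 54`.
`Yc_three`, `Yc_two`: same side: `YL` of the two arcs at the node agree because `chi` is injective on the common tile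
and `Parc_one` resp. `Parc_zero` (`nodeC (arcAt (nodeC a) _) = nodeC a`). Across the wall (`cr (nodeC a)`, left side: `fl (true, a) 2 =
(false, arcAt (tt (nodeC a)) (isUp a))`): both coordinates are `-1` (if `isUp a`, then `nodeC a = tileL a`) or both
`1` (`YL_zero`, decide that `isUp a` iff `nodeC a = tileL a` for crossing nodes).
`lev_congr`: `lev k = lev (ccl k) + n` for some `n ∈ ℤ` (iterate `lev_tt`; decide that `k = tt^[i] (ccl k)` with crossing
intermediate indices, `i ≤ 5`), and `lev_sep`. -/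

set_option linter.style.longLine false

open Topology Set

namespace Pool.AML

/-- the arc whose tile coordinate is used by a flag. -/
def F7_arc (φ : Flag) : Fin 108 := if φ.1 then φ.2 else φ.2 + 36

theorem F7_Yc (φ : Flag) (u : ℝ) : Yc φ u = YL (F7_arc φ) u := by
  obtain ⟨s, a⟩ := φ
  cases s <;> rfl

theorem F7_arc_inj {φ ψ : Flag} (hs : φ.1 = ψ.1) (h : F7_arc φ = F7_arc ψ) : φ = ψ := by
  obtain ⟨s, a⟩ := φ
  obtain ⟨t, b⟩ := ψ
  simp only at hs
  subst hs
  cases s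
  · have h1 : a + 36 = b + 36 := h
    have h2 := add_right_cancel h1
    rw [h2]
  · have h1 : a = b := h
    rw [h1]

theorem chi_Yc_left (a : Fin 108) {u : ℝ} (h0 : 0 ≤ u) (h1 : u ≤ 1) :
    chi (tile (true, a)) (Yc (true, a) u) = Parc a u := chi_YL a h0 h1

theorem F7_chi_right (a : Fin 108) {u : ℝ} (h0 : 0 ≤ u) (h1 : u ≤ 1) :
    chi (tile (false, a)) (Yc (false, a) u) = SS (Parc (a + 36) u) := by
  have h2 := SS_chi (tileL (a + 36)) (cr_tileL _) (YL (a + 36) u)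
  rw [chi_YL (a + 36) h0 h1] at h2
  rw [h2]
  rfl

theorem chi_Yc_right (a : Fin 108) {u : ℝ} (h0 : 0 ≤ u) (h1 : u ≤ 1) :
    TT (chi (tile (false, a)) (Yc (false, a) u)) = Parc a u := by
  rw [F7_chi_right a h0 h1, Parc_rho, add_sub_cancel_right]

theorem F7_sg_sg : ∀ k : Fin 54, cr k = true → sg (sg k) = k := by decide +kernel

theorem F7_cr_sg : ∀ k : Fin 54, cr k = true → cr (sg k) = true := by decide +kernel

theorem sg_sg (k : Fin 54) (hk : cr k = true) : sg (sg k) = k := F7_sg_sg k hk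
theorem cr_sg (k : Fin 54) (hk : cr k = true) : cr (sg k) = true := F7_cr_sg k hk

theorem F7_tile (φ : Flag) : tile φ = if φ.1 then tileL (F7_arc φ) else sg (tileL (F7_arc φ)) := by
  obtain ⟨s, a⟩ := φ
  cases s <;> rfl

theorem cr_tile (φ : Flag) : cr (tile φ) = true := by
  rw [F7_tile]
  split_ifs
  · exact cr_tileL _
  · exact cr_sg _ (cr_tileL _)

theorem Yc_mem (φ : Flag) {u : ℝ} (h0 : 0 ≤ u) (h1 : u ≤ 1) : |Yc φ u| ≤ 1 := by
  rw [F7_Yc, abs_le]
  exact YL_mem _ h0 h1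

theorem Yc_end (φ : Flag) {u : ℝ} (h0 : 0 ≤ u) (h1 : u ≤ 1) (h : |Yc φ u| = 1) : u = 0 := by
  rw [F7_Yc] at h
  exact YL_end _ h0 h1 h

theorem continuousOn_Yc (φ : Flag) : ContinuousOn (Yc φ) (Icc 0 1) := by
  have e : Yc φ = YL (F7_arc φ) := funext (fun u => F7_Yc φ u)
  rw [e]
  exact continuousOn_YL _

theorem F7_tile_three : ∀ φ : Flag, tile (fl φ 3) = tile φ := by decide +kernel
theorem F7_tile_two : ∀ φ : Flag, tile (fl φ 2) = tile φ := by decide +kernel
theorem F7_tile_zero : ∀ φ : Flag, tile (fl φ 0) = sg (tile φ) := by decide +kernel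

theorem tile_three (φ : Flag) : tile (fl φ 3) = tile φ := F7_tile_three φ
theorem tile_two (φ : Flag) : tile (fl φ 2) = tile φ := F7_tile_two φ
theorem tile_zero (φ : Flag) : tile (fl φ 0) = sg (tile φ) := F7_tile_zero φ
theorem F7_fl_fl : ∀ (φ : Flag) (X : Fin 4), fl (fl φ X) X = φ := by decide +kernel
theorem fl_fl (φ : Flag) (X : Fin 4) : fl (fl φ X) X = φ := F7_fl_fl φ X

theorem F7_arc_three : ∀ φ : Flag, F7_arc (fl φ 3) =
    (if isUp (F7_arc φ) then F7_arc φ + 1 else F7_arc φ - 1) ∧ (fl φ 3).1 = φ.1 := by decide +kernel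

theorem F7_tileL_three : ∀ a : Fin 108, tileL (if isUp a then a + 1 else a - 1) = tileL a := by
  decide +kernel

theorem F7_YL_three (a : Fin 108) : YL (if isUp a then a + 1 else a - 1) 1 = YL a 1 := by
  have h1 := chi_YL (if isUp a then a + 1 else a - 1) (u := 1) zero_le_one le_rfl
  have h2 := chi_YL a (u := 1) zero_le_one le_rfl
  rw [← Parc_one a, F7_tileL_three a, ← h2] at h1
  exact chi_inj _ (cr_tileL a) h1

theorem Yc_three (φ : Flag) : Yc (fl φ 3) 1 = Yc φ 1 := by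
  rw [F7_Yc, F7_Yc, (F7_arc_three φ).1]
  exact F7_YL_three _

theorem F7_arc_two_same : ∀ φ : Flag, (fl φ 2).1 = φ.1 →
    F7_arc (fl φ 2) = arcAt (nodeC (F7_arc φ)) (!isUp (F7_arc φ)) ∧
      cr (nodeC (F7_arc φ)) = false := by decide +kernel

theorem F7_arc_two_diff : ∀ φ : Flag, (fl φ 2).1 ≠ φ.1 →
    cr (nodeC (F7_arc φ)) = true ∧ cr (nodeC (F7_arc (fl φ 2))) = true ∧
      isUp (F7_arc (fl φ 2)) = isUp (F7_arc φ) := by decide +kernel

theorem F7_same_tile : ∀ a : Fin 108, cr (nodeC a) = false →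
    tileL (arcAt (nodeC a) (!isUp a)) = tileL a ∧ nodeC (arcAt (nodeC a) (!isUp a)) = nodeC a := by
  decide +kernel

theorem F7_cross_tile : ∀ a : Fin 108, cr (nodeC a) = true →
    tileL (arcAt (nodeC a) (!isUp a)) ≠ tileL a := by decide +kernel

theorem F7_up : ∀ a : Fin 108, cr (nodeC a) = true → isUp a = true →
    nodeC a = tileL a ∧ nodeC a ≠ nx (tileL a) := by decide +kernel

theorem F7_dn : ∀ a : Fin 108, cr (nodeC a) = true → isUp a = false →
    nodeC a ≠ tileL a ∧ nodeC a = nx (tileL a) := by decide +kernel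

theorem F7_cr_nx : ∀ k : Fin 54, cr k = true → cr (nx k) = true := by decide +kernel

theorem F7_YL_two (a : Fin 108) (h : cr (nodeC a) = false) :
    YL (arcAt (nodeC a) (!isUp a)) 0 = YL a 0 := by
  obtain ⟨h3, h4⟩ := F7_same_tile a h
  have h1 := chi_YL (arcAt (nodeC a) (!isUp a)) (u := 0) le_rfl zero_le_one
  have h2 := chi_YL a (u := 0) le_rfl zero_le_one
  rw [Parc_zero, h4, ← Parc_zero, h3, ← h2] at h1
  exact chi_inj _ (cr_tileL a) h1

theorem F7_YL_cross (a : Fin 108) (h : cr (nodeC a) = true) :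
    YL a 0 = if isUp a then -1 else 1 := by
  rcases hb : isUp a with _ | _
  · obtain ⟨h1, h2⟩ := F7_dn a h hb
    rcases YL_zero a with h3 | h3 | h3
    · exact absurd h3.1 h1
    · rw [h3.2]; simp
    · rw [h] at h3; exact absurd h3.1 (by decide)
  · obtain ⟨h1, h2⟩ := F7_up a h hb
    rcases YL_zero a with h3 | h3 | h3
    · rw [h3.2]; simp
    · exact absurd h3.1 h2
    · rw [h] at h3; exact absurd h3.1 (by decide)

theorem Yc_two (φ : Flag) : Yc (fl φ 2) 0 = Yc φ 0 := by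
  rw [F7_Yc, F7_Yc]
  by_cases h : (fl φ 2).1 = φ.1
  · obtain ⟨h1, h2⟩ := F7_arc_two_same φ h
    rw [h1]
    exact F7_YL_two _ h2
  · obtain ⟨h1, h2, h3⟩ := F7_arc_two_diff φ h
    rw [F7_YL_cross _ h1, F7_YL_cross _ h2, h3]

theorem F7_arc_zero : ∀ φ : Flag, F7_arc (fl φ 0) = F7_arc φ := by decide +kernel

theorem Yc_zero (φ : Flag) (u : ℝ) : Yc (fl φ 0) u = Yc φ u := by
  rw [F7_Yc, F7_Yc, F7_arc_zero]

/-- crossing the wall (change of side by `fl · 2`) happens only at the ends of the tile. -/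
theorem Yc_wall (φ : Flag) (h : (fl φ 2).1 ≠ φ.1) : |Yc φ 0| = 1 := by
  obtain ⟨h1, h2, h3⟩ := F7_arc_two_diff φ h
  rw [F7_Yc, F7_YL_cross _ h1]
  split_ifs
  · norm_num
  · norm_num

/-- same side: the node is not an end of the tile. -/
theorem Yc_dummy (φ : Flag) (h : (fl φ 2).1 = φ.1) : |Yc φ 0| < 1 := by
  obtain ⟨h1, h2⟩ := F7_arc_two_same φ h
  rw [F7_Yc]
  rcases YL_zero (F7_arc φ) with h3 | h3 | h3
  · have h4 := cr_tileL (F7_arc φ)
    rw [← h3.1, h2] at h4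
    exact absurd h4 (by decide)
  · have h4 := F7_cr_nx _ (cr_tileL (F7_arc φ))
    rw [← h3.1, h2] at h4
    exact absurd h4 (by decide)
  · exact h3.2

/-- overlaps of the arcs of one side of one tile. -/
theorem Yc_eq {φ ψ : Flag} (hs : φ.1 = ψ.1) (ht : tile φ = tile ψ) {u v : ℝ} (hu : 0 ≤ u) (hu1 : u ≤ 1)
    (hv : 0 ≤ v) (hv1 : v ≤ 1) (h : Yc φ u = Yc ψ v) :
    (φ = ψ ∧ u = v) ∨ (u = 1 ∧ v = 1 ∧ ψ = fl φ 3) ∨ (u = 0 ∧ v = 0 ∧ ψ = fl φ 2) := by
  have htt : tileL (F7_arc φ) = tileL (F7_arc ψ) := by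
    rw [F7_tile, F7_tile, ← hs] at ht
    by_cases h1 : φ.1 = true
    · rw [if_pos h1, if_pos h1] at ht
      exact ht
    · rw [if_neg h1, if_neg h1] at ht
      have h2 := congrArg sg ht
      rw [sg_sg _ (cr_tileL _), sg_sg _ (cr_tileL _)] at h2
      exact h2
  rw [F7_Yc, F7_Yc] at h
  rcases YL_eq htt hu hu1 hv hv1 h with ⟨h1, h2⟩ | ⟨h1, h2, h3⟩ | ⟨h1, h2, h3⟩
  · left
    exact ⟨F7_arc_inj hs h1, h2⟩
  · right; left
    refine ⟨h1, h2, ?_⟩
    have h4 := F7_arc_three φ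
    apply F7_arc_inj
    · rw [h4.2, hs]
    · rw [h4.1]
      exact h3
  · right; right
    refine ⟨h1, h2, ?_⟩
    by_cases h5 : (fl φ 2).1 = φ.1
    · obtain ⟨h6, h7⟩ := F7_arc_two_same φ h5
      apply F7_arc_inj
      · rw [h5, hs]
      · rw [h6]
        exact h3
    · exfalso
      obtain ⟨h6, _, _⟩ := F7_arc_two_diff φ h5
      apply F7_cross_tile _ h6
      rw [← h3]
      exact htt.symm

/-- every point of the tile on every side is covered. -/
theorem Yc_cover (s : Bool) (k : Fin 54) (hk : cr k = true) {y : ℝ} (hy : |y| ≤ 1) :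
    ∃ φ : Flag, φ.1 = s ∧ tile φ = k ∧ ∃ u : ℝ, 0 ≤ u ∧ u ≤ 1 ∧ Yc φ u = y := by
  cases s
  · obtain ⟨a, ha, u, h0, h1, hY⟩ := tile_cover (sg k) (cr_sg k hk) hy
    have e : a - 36 + 36 = a := sub_add_cancel a 36
    refine ⟨(false, a - 36), rfl, ?_, u, h0, h1, ?_⟩
    · show sg (tileL (a - 36 + 36)) = k
      rw [e, ha, sg_sg k hk]
    · show YL (a - 36 + 36) u = y
      rw [e, hY]
  · obtain ⟨a, ha, u, h0, h1, hY⟩ := tile_cover k hk hy
    exact ⟨(true, a), rfl, ha, u, h0, h1, hY⟩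

/-- the value at the node `u = 0`, left side. -/
theorem chi_node_left (a : Fin 108) : chi (tile (true, a)) (Yc (true, a) 0) = ((lev (nodeC a) : ℝ) : OnePoint ℝ) := by
  rw [chi_Yc_left a le_rfl zero_le_one, Parc_zero]

/-- the value at the node `u = 0`, right side. -/
theorem chi_node_right (a : Fin 108) : chi (tile (false, a)) (Yc (false, a) 0) = ((lev (nodeC a) - 1 : ℝ) : OnePoint ℝ) := by
  have h1 := chi_Yc_right a (u := 0) le_rfl zero_le_one
  rw [Parc_zero] at h1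
  have h2 := congrArg TTi h1
  rw [TTi_TT, TTi_coe] at h2
  exact h2

theorem F7_ccl : ∀ k : Fin 54, 0 < ell (ccl k) ∧ ∃ i : Fin 6, tt^[i.1] (ccl k) = k ∧
    ∀ j : Fin 6, j.1 < i.1 → cr (tt^[j.1] (ccl k)) = true := by decide +kernel

theorem F7_iter (c : Fin 54) (i : ℕ) (h : ∀ j < i, cr (tt^[j] c) = true) :
    lev (tt^[i] c) = lev c + i := by
  induction i with
  | zero => simp
  | succ i ih =>
    rw [Function.iterate_succ_apply', lev_tt _ (h i (Nat.lt_succ_self i)),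
      ih (fun j hj => h j (Nat.lt_succ_of_lt hj))]
    push_cast
    ring

theorem F7_lev_ccl (k : Fin 54) : ∃ m : ℤ, lev k = lev (ccl k) + m := by
  obtain ⟨_, i, h1, h2⟩ := F7_ccl k
  refine ⟨i.1, ?_⟩
  have h3 := F7_iter (ccl k) i.1 (fun j hj => h2 ⟨j, lt_trans hj i.2⟩ hj)
  rw [h1] at h3
  rw [h3]
  push_cast
  ring

theorem lev_congr {j k : Fin 54} {n : ℤ} (h : lev j = lev k + n) : ccl j = ccl k := by
  obtain ⟨a, ha⟩ := F7_lev_ccl j
  obtain ⟨b, hb⟩ := F7_lev_ccl k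
  refine (lev_sep (ccl j) (ccl k) (b + n - a) (F7_ccl j).1 (F7_ccl k).1 ?_).1
  have e : lev (ccl j) - lev (ccl k) - ((b + n - a : ℤ) : ℝ) = 0 := by
    push_cast
    linarith
  rw [e, abs_zero]
  norm_num

end Pool.AML
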