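import Pool.Agent.AML.G.Defs

/-! # Block F: tables. -/

set_option linter.style.longLine false

namespace Pool.AML

/-- `⌊1000 * lev k⌋`. -/
def qTab : List ℤ := [183, 224, 267, 289, 310, 366, 408, 422, 449, 550, 577, 591, 633, 689, 710, 732, 775, 816, 1224,
  1289, 1366, 1408, 1449, 1577, 1689, 1732, 1816, 2224, 2366, 2449, 2732, 3224, 3449, 3732, 4449,
  5449, -4450, -3450, -2733, -2450, -2225, -1733, -1450, -1367, -1225, -817, -733, -690, -578,
  -450, -409, -367, -290, -225]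

def q (k : Fin 54) : ℤ := qTab.getD k 0

/-- index of `-1 / lev k` for crossing levels `k` (junk `54 → k` otherwise). -/
def sgTab : List ℕ := [54, 36, 54, 37, 54, 38, 39, 54, 40, 54, 41, 54, 54, 42, 54, 43, 54, 44, 45, 54,
  46, 54, 47, 54, 54, 48, 54, 49, 54, 50, 51, 54, 52, 54, 53, 54, 1, 3, 5, 6, 8, 10, 13, 15, 17, 18,
  20, 22, 25, 27, 29, 30, 32, 34]

def sg (k : Fin 54) : Fin 54 := if h : sgTab.getD k 54 < 54 then ⟨sgTab.getD k 54, h⟩ else k

end Pool.AML
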